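import Mathlib

/-!
MODULE Fou (about 100 lines).  Additive characters.

`orth`: for an integer `z` and `M ≥ 1`: `∑_{a < M} e(a z / M) = M` if `M ∣ z`, else `0` (geometric sum;
`Complex.exp_eq_one_iff`).
`split`: every fraction `a / 2^σ`, `0 < a < 2^σ`, is uniquely `(2 c + 1)/2^(b+1)` with `b < σ`, `c < 2^b`.  Induction on `σ`:
`∑_{a < 2 M} f a = ∑_{a < M} f (2 a) + ∑_{a < M} f (2 a + 1)` (induction on `M`).
`zero_sum`: `∑_{n < 2^w} e(n c / 2^b) = 0` for `c` odd and `1 ≤ b ≤ w` (geometric sum with `q = e(c/2^b) ≠ 1`, `q^(2^w) = 1`).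
-/

namespace H10.HD

open Finset

/-- `e(t) = exp (2 π i t)`. -/
noncomputable def ee (t : ℝ) : ℂ := Complex.exp (2 * Real.pi * t * Complex.I)

theorem ee_add (s t : ℝ) : ee (s + t) = ee s * ee t := by
  unfold ee
  rw [← Complex.exp_add]
  congr 1
  push_cast
  ring

theorem ee_zero : ee 0 = 1 := by
  simp [ee]

theorem norm_ee (t : ℝ) : ‖ee t‖ = 1 := by
  unfold ee
  have := Complex.norm_exp_ofReal_mul_I (2 * Real.pi * t)
  push_cast at this
  exact this

private theorem ee_pow (t : ℝ) (n : ℕ) : ee t ^ n = ee (n * t) := by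
  unfold ee
  rw [← Complex.exp_nat_mul]
  congr 1
  push_cast
  ring

private theorem ee_eq_one_iff (t : ℝ) : ee t = 1 ↔ ∃ n : ℤ, t = n := by
  unfold ee
  rw [Complex.exp_eq_one_iff]
  constructor
  · rintro ⟨n, hn⟩
    refine ⟨n, ?_⟩
    have h1 : ((2 * Real.pi : ℝ) : ℂ) * Complex.I ≠ 0 :=
      mul_ne_zero (by exact_mod_cast Real.two_pi_pos.ne') Complex.I_ne_zero
    have h2 : (t : ℂ) * (((2 * Real.pi : ℝ) : ℂ) * Complex.I) =
        (n : ℂ) * (((2 * Real.pi : ℝ) : ℂ) * Complex.I) := by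
      push_cast
      linear_combination hn
    have h3 := mul_right_cancel₀ h1 h2
    exact_mod_cast h3
  · rintro ⟨n, rfl⟩
    refine ⟨n, ?_⟩
    push_cast
    ring

private theorem ee_geom (t : ℝ) (N : ℕ) (h1 : ee t ≠ 1) (h2 : ee (N * t) = 1) :
    ∑ a ∈ range N, ee (a * t) = 0 := by
  have h3 : ∑ a ∈ range N, ee (a * t) = ∑ a ∈ range N, ee t ^ a :=
    Finset.sum_congr rfl (fun a _ => (ee_pow t a).symm)
  rw [h3, geom_sum_eq h1, ee_pow, h2, sub_self, zero_div]

theorem star_ee (t : ℝ) : star (ee t) = ee (-t) := by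
  unfold ee
  rw [Complex.star_def, ← Complex.exp_conj]
  congr 1
  rw [map_mul, map_mul, map_mul, Complex.conj_I, Complex.conj_ofReal, Complex.conj_ofReal,
    map_ofNat]
  push_cast
  ring

theorem orth (M : ℕ) (hM : 1 ≤ M) (z : ℤ) :
    ∑ a ∈ range M, ee (a * z / M) = if (M : ℤ) ∣ z then (M : ℂ) else 0 := by
  have hM0 : (M : ℝ) ≠ 0 := by
    have : (0 : ℝ) < M := by exact_mod_cast hM
    exact this.ne'
  have h0 : ∑ a ∈ range M, ee (a * z / M) = ∑ a ∈ range M, ee (a * (z / M : ℝ)) :=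
    Finset.sum_congr rfl (fun a _ => by rw [mul_div_assoc])
  rw [h0]
  split_ifs with h
  · obtain ⟨k, rfl⟩ := h
    have h1 : ∀ a ∈ range M, ee (a * (((M : ℤ) * k : ℤ) / M : ℝ)) = 1 := by
      intro a _
      rw [ee_eq_one_iff]
      refine ⟨a * k, ?_⟩
      push_cast
      field_simp
    rw [Finset.sum_congr rfl h1]
    simp
  · apply ee_geom
    · intro h1
      obtain ⟨n, hn⟩ := (ee_eq_one_iff _).mp h1
      apply h
      refine ⟨n, ?_⟩
      have h2 : (z : ℝ) = M * n := by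
        rw [div_eq_iff hM0] at hn
        rw [hn, mul_comm]
      exact_mod_cast h2
    · rw [ee_eq_one_iff]
      exact ⟨z, by field_simp⟩

theorem split (σ : ℕ) (g : ℝ → ℝ) :
    ∑ a ∈ range (2 ^ σ), g (a / 2 ^ σ) =
      g 0 + ∑ b ∈ range σ, ∑ c ∈ range (2 ^ b), g ((2 * c + 1) / 2 ^ (b + 1)) := by
  have key : ∀ (f : ℕ → ℝ) (M : ℕ), ∑ a ∈ range (2 * M), f a =
      ∑ a ∈ range M, f (2 * a) + ∑ a ∈ range M, f (2 * a + 1) := by
    intro f M
    induction M with
    | zero => simp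
    | succ M ih =>
      rw [show 2 * (M + 1) = 2 * M + 1 + 1 by ring, Finset.sum_range_succ, Finset.sum_range_succ,
        ih, Finset.sum_range_succ, Finset.sum_range_succ]
      ring
  induction σ with
  | zero => simp
  | succ σ ih =>
    rw [Finset.sum_range_succ, ← add_assoc, ← ih, pow_succ' 2 σ, key]
    congr 1
    · apply Finset.sum_congr rfl
      intro a _
      congr 1
      push_cast
      rw [pow_succ' (2 : ℝ) σ, mul_div_mul_left _ _ (two_ne_zero)]
    · apply Finset.sum_congr rfl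
      intro a _
      congr 1
      push_cast
      rfl

theorem zero_sum (w b c : ℕ) (hb : 1 ≤ b) (hbw : b ≤ w) (hc : c % 2 = 1) :
    ∑ n ∈ range (2 ^ w), ee (n * (c / 2 ^ b)) = 0 := by
  have h2b : (2 : ℝ) ^ b ≠ 0 := by positivity
  apply ee_geom
  · intro h1
    obtain ⟨n, hn⟩ := (ee_eq_one_iff _).mp h1
    rw [div_eq_iff h2b] at hn
    have h2 : (c : ℤ) = n * 2 ^ b := by exact_mod_cast hn
    obtain ⟨b', rfl⟩ : ∃ b', b = b' + 1 := ⟨b - 1, by omega⟩
    rw [pow_succ, ← mul_assoc] at h2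
    omega
  · rw [ee_eq_one_iff]
    obtain ⟨k, rfl⟩ := Nat.exists_eq_add_of_le hbw
    refine ⟨2 ^ k * c, ?_⟩
    push_cast
    rw [pow_add]
    field_simp

end H10.HD
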