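import Mathlib

/-!
MODULE Tup (about 50 lines).  A number `m` is the product of at most `k!` ordered `k`-tuples of primes:
if `∏ x i = m` then `List.ofFn x` is a permutation of `m.primeFactorsList` (`Nat.primeFactorsList_unique`; `m ≠ 0`
since the product of primes is not zero), `List.ofFn` is injective, and a list of length `k` has at most `k!`
permutations (`List.mem_permutations`, `List.length_permutations`, `List.toFinset_card_le`).
-/

namespace H10.HD

open Finset

theorem card_tuples_le (P : Finset ℕ) (hP : ∀ p ∈ P, p.Prime) (k m : ℕ) :
    ((Fintype.piFinset (fun _ : Fin k => P)).filter (fun x => ∏ i, x i = m)).card ≤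
      k.factorial := by
  classical
  by_cases hm : m = 0
  · subst hm
    have : ((Fintype.piFinset (fun _ : Fin k => P)).filter (fun x => ∏ i, x i = 0)) = ∅ := by
      rw [Finset.filter_eq_empty_iff]
      intro x hx h
      rw [Finset.prod_eq_zero_iff] at h
      obtain ⟨i, -, hi⟩ := h
      exact (hP _ (Fintype.mem_piFinset.1 hx i)).ne_zero hi
    rw [this, Finset.card_empty]
    exact Nat.zero_le _
  · by_cases hlen : m.primeFactorsList.length = k
    · have h1 : ((Fintype.piFinset (fun _ : Fin k => P)).filter (fun x => ∏ i, x i = m)).card ≤
          (m.primeFactorsList.permutations.toFinset).card := by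
        apply Finset.card_le_card_of_injOn (fun x => List.ofFn x)
        · intro x hx
          rw [Finset.mem_coe, Finset.mem_filter] at hx
          obtain ⟨hx1, hx2⟩ := hx
          rw [Finset.mem_coe, List.mem_toFinset, List.mem_permutations]
          apply Nat.primeFactorsList_unique
          · rw [List.prod_ofFn]
            exact hx2
          · intro p hp
            obtain ⟨i, rfl⟩ := (List.mem_ofFn' _ _).1 hp
            exact hP _ (Fintype.mem_piFinset.1 hx1 i)
        · intro x _ y _ h
          exact List.ofFn_injective h
      refine h1.trans ((List.toFinset_card_le _).trans ?_)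
      rw [List.length_permutations, hlen]
    · have : ((Fintype.piFinset (fun _ : Fin k => P)).filter (fun x => ∏ i, x i = m)) = ∅ := by
        rw [Finset.filter_eq_empty_iff]
        intro x hx h
        apply hlen
        have h1 : (List.ofFn x).Perm m.primeFactorsList := by
          apply Nat.primeFactorsList_unique
          · rw [List.prod_ofFn]
            exact h
          · intro p hp
            obtain ⟨i, rfl⟩ := (List.mem_ofFn' _ _).1 hp
            exact hP _ (Fintype.mem_piFinset.1 hx i)
        rw [← h1.length_eq, List.length_ofFn]
      rw [this, Finset.card_empty]
      exact Nat.zero_le _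

end H10.HD
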