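import Mathlib
import Pool.Agent.H10.HD.Tup
import Pool.Agent.H10.HD.Fou

/-!
MODULE Bil (about 150 lines).  The bilinear bound.  `P` a finite set of primes `< 2^w`, `w k ≤ b`, `c` odd:
`|∑_{x,y ∈ P^k} e(c (∏ x)(∏ y) / 2^b)|^2 ≤ |P|^(2k) (k!)^2 2^b`.

Proof.  Write `T = P^k` (`Fintype.piFinset (fun _ : Fin k => P)`, card `|P|^k`: `Fintype.card_piFinset_const`), `M = 2^b`,
`g(m) = ∑_{y ∈ T} e(c m (∏ y) / M)`.  Cauchy-Schwarz (`sq_sum_le_card_mul_sum_sq` after the triangle inequality):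
`|∑_x g(∏ x)|^2 ≤ |T| ∑_{x ∈ T} |g(∏ x)|^2`.  Each `∏ x < M` (a product of `k` numbers `< 2^w`, for `k = 0` it is `1`; if `b = 0` then
`k = 0` or `w = 0`, and `1 < 2^0` fails: treat `k = 0` separately: then both sums have one term of modulus `1`, and the bound says
`1 ≤ 2^b`), so by `card_tuples_le` (`Finset.sum_fiberwise_of_maps_to` onto `range M`)
`∑_{x ∈ T} |g(∏ x)|^2 ≤ k! ∑_{m < M} |g(m)|^2`.  Expanding the square, `∑_{m < M} |g(m)|^2 =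
∑_{y,y'} ∑_{m < M} e(c m (∏ y - ∏ y') / M) = M #{(y,y') : M ∣ c (∏ y - ∏ y')}` (`orth`) `= M #{(y,y') : ∏ y = ∏ y'}` (`c` odd, both
products in `[0, M)`) `≤ M |T| k!`.
-/

namespace H10.HD

open Finset

private theorem bil_prod_pos (P : Finset ℕ) (k : ℕ) (hP : ∀ p ∈ P, p.Prime)
    (x : Fin k → ℕ) (hx : x ∈ Fintype.piFinset (fun _ : Fin k => P)) : 0 < ∏ i, x i :=
  Finset.prod_pos fun i _ => (hP _ (Fintype.mem_piFinset.1 hx i)).pos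

private theorem bil_prod_lt (P : Finset ℕ) (w k b : ℕ) (hk : 1 ≤ k) (hP : ∀ p ∈ P, p.Prime ∧ p < 2 ^ w)
    (hb : w * k ≤ b)
    (x : Fin k → ℕ) (hx : x ∈ Fintype.piFinset (fun _ : Fin k => P)) : ∏ i, x i < 2 ^ b := by
  have h1 : ∏ i, x i < ∏ _i : Fin k, 2 ^ w := by
    apply Finset.prod_lt_prod_of_nonempty
    · intro i _
      exact (hP _ (Fintype.mem_piFinset.1 hx i)).1.pos
    · intro i _
      exact (hP _ (Fintype.mem_piFinset.1 hx i)).2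
    · exact ⟨⟨0, hk⟩, Finset.mem_univ _⟩
  rw [Finset.prod_const, Finset.card_univ, Fintype.card_fin, ← pow_mul] at h1
  exact lt_of_lt_of_le h1 (Nat.pow_le_pow_right (by norm_num) hb)

private theorem bil_inj (b c u v : ℕ) (hc : c % 2 = 1) (hu : u < 2 ^ b) (hv : v < 2 ^ b)
    (h : ((2 ^ b : ℕ) : ℤ) ∣ (c : ℤ) * ((u : ℤ) - v)) : v = u := by
  have hcop : IsCoprime ((2 ^ b : ℕ) : ℤ) (c : ℤ) := by
    rw [Nat.isCoprime_iff_coprime]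
    apply Nat.Coprime.pow_left
    rw [Nat.coprime_two_left]
    exact Nat.odd_iff.2 hc
  have h2 : ((2 ^ b : ℕ) : ℤ) ∣ (u : ℤ) - v := hcop.dvd_of_dvd_mul_left h
  have h3 : (v : ℤ) ≡ u [ZMOD ((2 ^ b : ℕ) : ℤ)] := (Int.modEq_iff_dvd).2 h2
  have h4 : v ≡ u [MOD 2 ^ b] := (Int.natCast_modEq_iff).1 h3
  exact Nat.ModEq.eq_of_lt_of_lt h4 hv hu

/-- The sum of the squares of the inner sums. -/
private theorem bil_second (P : Finset ℕ) (w k b c : ℕ) (hk : 1 ≤ k) (hP : ∀ p ∈ P, p.Prime ∧ p < 2 ^ w)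
    (hb : w * k ≤ b) (hc : c % 2 = 1) :
    ∑ m ∈ range (2 ^ b), ‖∑ y ∈ Fintype.piFinset (fun _ : Fin k => P),
      ee (((c * m * (∏ i, y i) : ℕ) : ℝ) / 2 ^ b)‖ ^ 2 ≤
      (P.card : ℝ) ^ k * (k.factorial : ℝ) * 2 ^ b := by
  set T := Fintype.piFinset (fun _ : Fin k => P) with hT
  have hTc : (T.card : ℝ) = (P.card : ℝ) ^ k := by
    rw [hT, Fintype.card_piFinset_const]
    push_cast
    rfl
  have hterm : ∀ m : ℕ, ((‖∑ y ∈ T, ee (((c * m * (∏ i, y i) : ℕ) : ℝ) / 2 ^ b)‖ ^ 2 : ℝ) : ℂ) =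
      ∑ y ∈ T, ∑ z ∈ T, ee ((m : ℝ) * (((c : ℤ) * (((∏ i, y i : ℕ) : ℤ) - ((∏ i, z i : ℕ) : ℤ)) : ℤ) : ℝ) /
        ((2 ^ b : ℕ) : ℝ)) := by
    intro m
    have h1 : ((‖∑ y ∈ T, ee (((c * m * (∏ i, y i) : ℕ) : ℝ) / 2 ^ b)‖ ^ 2 : ℝ) : ℂ) =
        (∑ y ∈ T, ee (((c * m * (∏ i, y i) : ℕ) : ℝ) / 2 ^ b)) *
          star (∑ y ∈ T, ee (((c * m * (∏ i, y i) : ℕ) : ℝ) / 2 ^ b)) := by
      have := Complex.mul_conj (∑ y ∈ T, ee (((c * m * (∏ i, y i) : ℕ) : ℝ) / 2 ^ b))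
      rw [Complex.normSq_eq_norm_sq] at this
      rw [← this]
      rfl
    rw [h1, star_sum, Finset.sum_mul_sum]
    refine Finset.sum_congr rfl fun y _ => Finset.sum_congr rfl fun z _ => ?_
    rw [star_ee, ← ee_add]
    congr 1
    push_cast
    ring
  have hsum : ((∑ m ∈ range (2 ^ b), ‖∑ y ∈ T, ee (((c * m * (∏ i, y i) : ℕ) : ℝ) / 2 ^ b)‖ ^ 2 : ℝ) : ℂ) =
      ((∑ y ∈ T, ∑ z ∈ T, (if ((2 ^ b : ℕ) : ℤ) ∣ (c : ℤ) * (((∏ i, y i : ℕ) : ℤ) - ((∏ i, z i : ℕ) : ℤ))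
        then (2 ^ b : ℝ) else 0) : ℝ) : ℂ) := by
    rw [Complex.ofReal_sum, Finset.sum_congr rfl (fun m _ => hterm m), Finset.sum_comm, Complex.ofReal_sum]
    refine Finset.sum_congr rfl fun y _ => ?_
    rw [Finset.sum_comm, Complex.ofReal_sum]
    refine Finset.sum_congr rfl fun z _ => ?_
    rw [orth (2 ^ b) (Nat.one_le_two_pow) _]
    split_ifs with h
    · push_cast
      rfl
    · simp
  have hsum' := Complex.ofReal_injective hsum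
  rw [hsum']
  calc ∑ y ∈ T, ∑ z ∈ T, (if ((2 ^ b : ℕ) : ℤ) ∣ (c : ℤ) * (((∏ i, y i : ℕ) : ℤ) - ((∏ i, z i : ℕ) : ℤ))
        then (2 ^ b : ℝ) else 0)
      ≤ ∑ y ∈ T, (k.factorial : ℝ) * 2 ^ b := by
        refine Finset.sum_le_sum fun y hy => ?_
        rw [← Finset.sum_filter, Finset.sum_const, nsmul_eq_mul]
        have hcard : (T.filter (fun z => ((2 ^ b : ℕ) : ℤ) ∣
            (c : ℤ) * (((∏ i, y i : ℕ) : ℤ) - ((∏ i, z i : ℕ) : ℤ)))).card ≤ k.factorial := by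
          refine le_trans (Finset.card_le_card ?_) (card_tuples_le P (fun p hp => (hP p hp).1) k (∏ i, y i))
          intro z hz
          rw [Finset.mem_filter] at hz ⊢
          refine ⟨hz.1, ?_⟩
          exact bil_inj b c _ _ hc (bil_prod_lt P w k b hk hP hb y hy)
            (bil_prod_lt P w k b hk hP hb z hz.1) hz.2
        have : ((T.filter (fun z => ((2 ^ b : ℕ) : ℤ) ∣
            (c : ℤ) * (((∏ i, y i : ℕ) : ℤ) - ((∏ i, z i : ℕ) : ℤ)))).card : ℝ) ≤ (k.factorial : ℝ) := by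
          exact_mod_cast hcard
        exact mul_le_mul_of_nonneg_right this (by positivity)
    _ = (P.card : ℝ) ^ k * (k.factorial : ℝ) * 2 ^ b := by
        rw [Finset.sum_const, nsmul_eq_mul, hTc]
        ring

theorem bilinear (P : Finset ℕ) (w k b c : ℕ) (hP : ∀ p ∈ P, p.Prime ∧ p < 2 ^ w)
    (hb : w * k ≤ b) (hc : c % 2 = 1) :
    ‖∑ x ∈ Fintype.piFinset (fun _ : Fin k => P), ∑ y ∈ Fintype.piFinset (fun _ : Fin k => P),
      ee (((c * (∏ i, x i) * (∏ i, y i) : ℕ) : ℝ) / 2 ^ b)‖ ^ 2 ≤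
      (P.card : ℝ) ^ (2 * k) * (k.factorial : ℝ) ^ 2 * 2 ^ b := by
  rcases Nat.eq_zero_or_pos k with hk | hk
  · subst hk
    have h1 : ‖∑ x ∈ Fintype.piFinset (fun _ : Fin 0 => P), ∑ y ∈ Fintype.piFinset (fun _ : Fin 0 => P),
        ee (((c * (∏ i, x i) * (∏ i, y i) : ℕ) : ℝ) / 2 ^ b)‖ ≤ 1 := by
      refine le_trans (norm_sum_le _ _) ?_
      refine le_trans (Finset.sum_le_sum fun x _ => norm_sum_le _ _) ?_
      simp only [norm_ee, Finset.sum_const, Fintype.card_piFinset_const, pow_zero, one_smul]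
      exact le_refl _
    have h2 : (1 : ℝ) ≤ 2 ^ b := one_le_pow₀ (by norm_num)
    have h3 : (0 : ℝ) ≤ ‖∑ x ∈ Fintype.piFinset (fun _ : Fin 0 => P),
        ∑ y ∈ Fintype.piFinset (fun _ : Fin 0 => P),
        ee (((c * (∏ i, x i) * (∏ i, y i) : ℕ) : ℝ) / 2 ^ b)‖ := norm_nonneg _
    simp only [mul_zero, pow_zero, Nat.factorial_zero, Nat.cast_one, one_pow, one_mul]
    refine le_trans ?_ h2
    exact pow_le_one₀ h3 h1
  set T := Fintype.piFinset (fun _ : Fin k => P) with hT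
  have hTc : (T.card : ℝ) = (P.card : ℝ) ^ k := by
    rw [hT, Fintype.card_piFinset_const]
    push_cast
    rfl
  set g : ℕ → ℝ := fun m => ‖∑ y ∈ T, ee (((c * m * (∏ i, y i) : ℕ) : ℝ) / 2 ^ b)‖ with hg
  have hsec : ∑ m ∈ range (2 ^ b), g m ^ 2 ≤ (P.card : ℝ) ^ k * (k.factorial : ℝ) * 2 ^ b :=
    bil_second P w k b c hk hP hb hc
  have h1 : ‖∑ x ∈ T, ∑ y ∈ T, ee (((c * (∏ i, x i) * (∏ i, y i) : ℕ) : ℝ) / 2 ^ b)‖ ≤
      ∑ x ∈ T, g (∏ i, x i) := norm_sum_le _ _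
  have h2 : ‖∑ x ∈ T, ∑ y ∈ T, ee (((c * (∏ i, x i) * (∏ i, y i) : ℕ) : ℝ) / 2 ^ b)‖ ^ 2 ≤
      (∑ x ∈ T, g (∏ i, x i)) ^ 2 := pow_le_pow_left₀ (norm_nonneg _) h1 2
  have h3 : (∑ x ∈ T, g (∏ i, x i)) ^ 2 ≤ (T.card : ℝ) * ∑ x ∈ T, g (∏ i, x i) ^ 2 :=
    sq_sum_le_card_mul_sum_sq
  have h4 : ∑ x ∈ T, g (∏ i, x i) ^ 2 ≤ (k.factorial : ℝ) * ∑ m ∈ range (2 ^ b), g m ^ 2 := by
    rw [← Finset.sum_fiberwise_of_maps_to (s := T) (t := range (2 ^ b)) (g := fun x => ∏ i, x i)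
      (fun x hx => Finset.mem_range.2 (bil_prod_lt P w k b hk hP hb x hx)), Finset.mul_sum]
    refine Finset.sum_le_sum fun m _ => ?_
    have h5 : ∑ x ∈ T.filter (fun x => ∏ i, x i = m), g (∏ i, x i) ^ 2 =
        ∑ x ∈ T.filter (fun x => ∏ i, x i = m), g m ^ 2 := by
      refine Finset.sum_congr rfl fun x hx => ?_
      rw [(Finset.mem_filter.1 hx).2]
    rw [h5, Finset.sum_const, nsmul_eq_mul]
    have h6 : ((T.filter (fun x => ∏ i, x i = m)).card : ℝ) ≤ (k.factorial : ℝ) := by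
      exact_mod_cast card_tuples_le P (fun p hp => (hP p hp).1) k m
    exact mul_le_mul_of_nonneg_right h6 (sq_nonneg _)
  have hT0 : (0 : ℝ) ≤ (T.card : ℝ) := Nat.cast_nonneg _
  have hk0 : (0 : ℝ) ≤ (k.factorial : ℝ) := Nat.cast_nonneg _
  calc ‖∑ x ∈ T, ∑ y ∈ T, ee (((c * (∏ i, x i) * (∏ i, y i) : ℕ) : ℝ) / 2 ^ b)‖ ^ 2
      ≤ (T.card : ℝ) * ∑ x ∈ T, g (∏ i, x i) ^ 2 := le_trans h2 h3
    _ ≤ (T.card : ℝ) * ((k.factorial : ℝ) * ((P.card : ℝ) ^ k * (k.factorial : ℝ) * 2 ^ b)) := by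
        refine mul_le_mul_of_nonneg_left ?_ hT0
        exact le_trans h4 (mul_le_mul_of_nonneg_left hsec hk0)
    _ = (P.card : ℝ) ^ (2 * k) * (k.factorial : ℝ) ^ 2 * 2 ^ b := by
        rw [hTc]
        ring

end H10.HD
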