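import Mathlib

/-!
MODULE Pri (about 60 lines).  Many odd primes below `2^(8v)`.

Let `N = 2^(8v)`.  Chebyshev: `Nat.centralBinom (N/2) ≤ ∏_{p ≤ N prime} p^(v_p) ≤ N^(π(N))` (`Nat.prod_pow_factorization_centralBinom`,
`Nat.pow_factorization_choose_le`) and `4^(N/2) ≤ N * centralBinom (N/2)`
(`Nat.four_pow_le_two_mul_self_mul_centralBinom` or similar), so `2^N ≤ N^(π(N) + 1)`, i.e. `N ≤ 8 v (π(N) + 1)`.
`N` itself is not a prime, so the number of odd primes `< N` is `π(N) - 1 ≥ N/(8v) - 2`.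
With `8 v (L + 1) ≤ 2^v`: `N ≥ 2^(7v) 8 v (L+1)`, so `N/(8v) - 2 ≥ 2^(7v) (L+1) - 2 ≥ L 2^(7v)`.
(Mathlib's NumberTheory/Chebyshev.lean may have a usable lower bound too.)
-/

namespace H10.HD

open Finset

/-- The odd primes below `2^(8v)`. -/
def oddPrimes (v : ℕ) : Finset ℕ := (range (2 ^ (8 * v))).filter (fun p => p.Prime ∧ p ≠ 2)

theorem oddPrimes_card (v L : ℕ) (hv : 1 ≤ v) (h : 8 * v * (L + 1) ≤ 2 ^ v) :
    L * 2 ^ (7 * v) ≤ (oddPrimes v).card := by
  set c := (oddPrimes v).card with hc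
  set M := 2 ^ (8 * v - 1) with hM
  have hM0 : 0 < M := by positivity
  have h2M : 2 * M = 2 ^ (8 * v) := by
    rw [hM, ← pow_succ']
    congr 1
    omega
  -- the central binomial coefficient
  have h1 : Nat.centralBinom M ≤ (2 * M) ^ (c + 1) := by
    rw [← Nat.prod_pow_factorization_centralBinom M]
    have hsub : ∏ p ∈ range (2 * M + 1), p ^ (Nat.centralBinom M).factorization p =
        ∏ p ∈ (range (2 * M + 1)).filter Nat.Prime,
          p ^ (Nat.centralBinom M).factorization p := by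
      symm
      apply Finset.prod_subset (Finset.filter_subset _ _)
      intro p hp hp'
      have hnp : ¬ p.Prime := fun hpp => hp' (Finset.mem_filter.2 ⟨hp, hpp⟩)
      rw [Nat.factorization_eq_zero_of_not_prime _ hnp, pow_zero]
    rw [hsub]
    have hcard : ((range (2 * M + 1)).filter Nat.Prime).card ≤ c + 1 := by
      have : (range (2 * M + 1)).filter Nat.Prime ⊆ insert 2 (oddPrimes v) := by
        intro p hp
        rw [Finset.mem_filter, Finset.mem_range] at hp
        rw [Finset.mem_insert]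
        by_cases hp2 : p = 2
        · exact Or.inl hp2
        · right
          rw [oddPrimes, Finset.mem_filter, Finset.mem_range]
          refine ⟨?_, hp.2, hp2⟩
          rcases Nat.lt_or_ge p (2 ^ (8 * v)) with h3 | h3
          · exact h3
          · exfalso
            have h4 : p = 2 ^ (8 * v) := by omega
            rw [h4] at hp
            exact Nat.Prime.not_prime_pow (by omega : 2 ≤ 8 * v) hp.2
      exact (Finset.card_le_card this).trans (Finset.card_insert_le _ _)
    calc ∏ p ∈ (range (2 * M + 1)).filter Nat.Prime, p ^ (Nat.centralBinom M).factorization p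
        ≤ ∏ _p ∈ (range (2 * M + 1)).filter Nat.Prime, (2 * M) := by
          apply Finset.prod_le_prod'
          intro p _
          have := Nat.pow_factorization_choose_le (p := p) (n := 2 * M) (k := M) (by omega)
          rwa [Nat.centralBinom_eq_two_mul_choose]
      _ = (2 * M) ^ ((range (2 * M + 1)).filter Nat.Prime).card := by rw [Finset.prod_const]
      _ ≤ (2 * M) ^ (c + 1) := Nat.pow_le_pow_right (by omega) hcard
  have h2 : 4 ^ M ≤ (2 * M) ^ (c + 2) := by
    calc 4 ^ M ≤ 2 * M * Nat.centralBinom M := Nat.four_pow_le_two_mul_self_mul_centralBinom M hM0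
      _ ≤ 2 * M * (2 * M) ^ (c + 1) := Nat.mul_le_mul_left _ h1
      _ = (2 * M) ^ (c + 2) := by rw [pow_succ' (2 * M) (c + 1)]
  have h3 : 2 ^ (8 * v) ≤ 8 * v * (c + 2) := by
    have e1 : (4 : ℕ) ^ M = 2 ^ (2 ^ (8 * v)) := by
      rw [show (4 : ℕ) = 2 ^ 2 by norm_num, ← pow_mul, h2M]
    rw [e1, h2M, ← pow_mul] at h2
    exact (Nat.pow_le_pow_iff_right (by norm_num)).1 h2
  have h4 : 8 * v * (2 ^ (7 * v) * (L + 1)) ≤ 8 * v * (c + 2) := by
    calc 8 * v * (2 ^ (7 * v) * (L + 1)) = 2 ^ (7 * v) * (8 * v * (L + 1)) := by ring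
      _ ≤ 2 ^ (7 * v) * 2 ^ v := Nat.mul_le_mul_left _ h
      _ = 2 ^ (8 * v) := by rw [← pow_add]; congr 1; omega
      _ ≤ 8 * v * (c + 2) := h3
  have h5 : 2 ^ (7 * v) * (L + 1) ≤ c + 2 := Nat.le_of_mul_le_mul_left h4 (by omega)
  have h6 : 2 ≤ 2 ^ (7 * v) := by
    calc 2 = 2 ^ 1 := by norm_num
      _ ≤ 2 ^ (7 * v) := Nat.pow_le_pow_right (by norm_num) (by omega)
  nlinarith

end H10.HD
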