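import Mathlib
import Pool.Agent.H10.HD.Bil
import Pool.Agent.H10.HD.Pri

/-!
Lemma B: residues modulo `2^σ`.  Let `P` be a finite set of odd primes `< 2^(8v)` and
`σ 2^(7v) ≤ |P|`.  Every residue modulo `2^σ` is `n + P_1 + P_2 + P_3 + P_4` with
`n < 2^(56v)` and products `P_i` of `2 ⌊σ/(8v)⌋` elements of `P`.
-/

namespace H10.HD

open Finset

theorem sum_pi_add (P : Finset ℕ) (m₁ m₂ : ℕ) (F : ℕ → ℂ) :
    ∑ x ∈ Fintype.piFinset (fun _ : Fin (m₁ + m₂) => P), F (∏ i, x i) =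
      ∑ x ∈ Fintype.piFinset (fun _ : Fin m₁ => P), ∑ y ∈ Fintype.piFinset (fun _ : Fin m₂ => P),
        F ((∏ i, x i) * (∏ i, y i)) := by
  rw [← Finset.sum_product']
  refine Finset.sum_nbij' (fun x => (fun i => x (Fin.castAdd m₂ i), fun j => x (Fin.natAdd m₁ j)))
    (fun z => Fin.append z.1 z.2) ?_ ?_ ?_ ?_ ?_
  · intro x hx
    rw [Fintype.mem_piFinset] at hx
    rw [Finset.mem_product, Fintype.mem_piFinset, Fintype.mem_piFinset]
    exact ⟨fun i => hx _, fun j => hx _⟩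
  · rintro ⟨x, y⟩ hz
    rw [Finset.mem_product, Fintype.mem_piFinset, Fintype.mem_piFinset] at hz
    rw [Fintype.mem_piFinset]
    intro i
    refine Fin.addCases (fun i => ?_) (fun i => ?_) i
    · rw [Fin.append_left]
      exact hz.1 i
    · rw [Fin.append_right]
      exact hz.2 i
  · intro x _
    funext i
    refine Fin.addCases (fun i => ?_) (fun i => ?_) i
    · rw [Fin.append_left]
    · rw [Fin.append_right]
  · rintro ⟨x, y⟩ _
    simp only [Fin.append_left, Fin.append_right]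
  · intro x _
    rw [Fin.prod_univ_add]

/-- The exponential sum over the products. -/
noncomputable def SS (P : Finset ℕ) (K : ℕ) (θ : ℝ) : ℂ :=
  ∑ x ∈ Fintype.piFinset (fun _ : Fin K => P), ee (((∏ i, x i : ℕ) : ℝ) * θ)

theorem prod_odd {P : Finset ℕ} {v : ℕ} (hP : ∀ p ∈ P, p.Prime ∧ p ≠ 2 ∧ p < 2 ^ (8 * v)) {m : ℕ}
    (y : Fin m → ℕ) (hy : ∀ i, y i ∈ P) : (∏ i, y i) % 2 = 1 := by
  have : Odd (∏ i, y i) := by
    apply Finset.prod_induction _ Odd
    · intro a b ha hb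
      exact ha.mul hb
    · exact odd_one
    · intro i _
      exact (hP _ (hy i)).1.odd_of_ne_two (hP _ (hy i)).2.1
  exact Nat.odd_iff.mp this

theorem SS_bound {P : Finset ℕ} {v : ℕ} (hP : ∀ p ∈ P, p.Prime ∧ p ≠ 2 ∧ p < 2 ^ (8 * v))
    (k m b c : ℕ) (hb : 8 * v * k ≤ b) (hc : c % 2 = 1) :
    ‖SS P (k + k + m) (c / 2 ^ b)‖ ^ 2 ≤
      (P.card : ℝ) ^ (2 * m) * ((P.card : ℝ) ^ (2 * k) * (k.factorial : ℝ) ^ 2 * 2 ^ b) := by
  set B : ℝ := (P.card : ℝ) ^ (2 * k) * (k.factorial : ℝ) ^ 2 * 2 ^ b with hB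
  have hB0 : 0 ≤ B := by positivity
  have h1 : SS P (k + k + m) (c / 2 ^ b) =
      ∑ y ∈ Fintype.piFinset (fun _ : Fin m => P),
        ∑ x ∈ Fintype.piFinset (fun _ : Fin k => P), ∑ x' ∈ Fintype.piFinset (fun _ : Fin k => P),
          ee (((c * (∏ i, y i) * (∏ i, x i) * (∏ i, x' i) : ℕ) : ℝ) / 2 ^ b) := by
    unfold SS
    rw [sum_pi_add P (k + k) m (fun z => ee ((z : ℝ) * (c / 2 ^ b))), Finset.sum_comm]
    apply Finset.sum_congr rfl
    intro y _
    rw [sum_pi_add P k k (fun z => ee (((z * ∏ i, y i : ℕ) : ℝ) * (c / 2 ^ b)))]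
    apply Finset.sum_congr rfl
    intro x _
    apply Finset.sum_congr rfl
    intro x' _
    congr 1
    push_cast
    ring
  have h2 : ‖SS P (k + k + m) (c / 2 ^ b)‖ ≤ (P.card : ℝ) ^ m * Real.sqrt B := by
    rw [h1]
    refine (norm_sum_le _ _).trans ?_
    have h3 : ∀ y ∈ Fintype.piFinset (fun _ : Fin m => P),
        ‖∑ x ∈ Fintype.piFinset (fun _ : Fin k => P),
          ∑ x' ∈ Fintype.piFinset (fun _ : Fin k => P),
          ee (((c * (∏ i, y i) * (∏ i, x i) * (∏ i, x' i) : ℕ) : ℝ) / 2 ^ b)‖ ≤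
          Real.sqrt B := by
      intro y hy
      rw [Fintype.mem_piFinset] at hy
      apply Real.le_sqrt_of_sq_le
      exact bilinear P (8 * v) k b (c * ∏ i, y i) (fun p hp => ⟨(hP p hp).1, (hP p hp).2.2⟩) hb
        (by rw [Nat.mul_mod, hc, prod_odd hP y hy])
    refine (Finset.sum_le_sum h3).trans ?_
    rw [Finset.sum_const, Fintype.card_piFinset_const, nsmul_eq_mul, Nat.cast_pow]
  calc ‖SS P (k + k + m) (c / 2 ^ b)‖ ^ 2 ≤ ((P.card : ℝ) ^ m * Real.sqrt B) ^ 2 :=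
        pow_le_pow_left₀ (norm_nonneg _) h2 2
    _ = (P.card : ℝ) ^ (2 * m) * B := by
        rw [mul_pow, Real.sq_sqrt hB0, ← pow_mul, mul_comm m 2]

theorem SS_fourth {P : Finset ℕ} {v σ : ℕ} (hv : 1 ≤ v)
    (hP : ∀ p ∈ P, p.Prime ∧ p ≠ 2 ∧ p < 2 ^ (8 * v)) (hσ : 1 ≤ σ)
    (hcard : σ * 2 ^ (7 * v) ≤ P.card) (b c : ℕ) (hb : 56 * v ≤ b) (hbσ : b ≤ σ) (hc : c % 2 = 1) :
    ‖SS P (2 * (σ / (8 * v))) (c / 2 ^ b)‖ ^ 4 * 2 ^ (4 * v + b) ≤
      ((P.card : ℝ) ^ (2 * (σ / (8 * v)))) ^ 4 := by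
  set k := b / (8 * v) with hk
  have hk7 : 7 ≤ k := by
    rw [hk, Nat.le_div_iff_mul_le (by omega)]
    omega
  have hkb : 8 * v * k ≤ b := by
    rw [hk]
    exact Nat.mul_div_le b (8 * v)
  have hbk : b + 1 ≤ 8 * v * (k + 1) := by
    rw [hk]
    exact Nat.lt_mul_div_succ b (by omega)
  have hkσ : k ≤ σ / (8 * v) := Nat.div_le_div_right hbσ
  have hkσ' : k ≤ σ := hkσ.trans (Nat.div_le_self _ _)
  obtain ⟨m, hm⟩ : ∃ m, 2 * (σ / (8 * v)) = k + k + m := ⟨2 * (σ / (8 * v)) - 2 * k, by omega⟩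
  rw [hm]
  have h1 := SS_bound hP k m b c hkb hc
  set p : ℝ := (P.card : ℝ) with hp
  have hp0 : 0 ≤ p := Nat.cast_nonneg _
  have h2 : ‖SS P (k + k + m) (c / 2 ^ b)‖ ^ 4 ≤
      (p ^ (2 * m) * (p ^ (2 * k) * (k.factorial : ℝ) ^ 2 * 2 ^ b)) ^ 2 := by
    have := pow_le_pow_left₀ (by positivity) h1 2
    rw [← pow_mul] at this
    exact this
  have h3 : (k.factorial : ℝ) ^ 4 * 2 ^ (3 * b + 4 * v) ≤ p ^ (4 * k) := by
    have e1 : (k.factorial : ℝ) ≤ (σ : ℝ) ^ k := by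
      have : k.factorial ≤ σ ^ k := (Nat.factorial_le_pow k).trans (Nat.pow_le_pow_left hkσ' k)
      exact_mod_cast this
    have e2 : (2 : ℝ) ^ (3 * b + 4 * v) ≤ 2 ^ (7 * v * (4 * k)) := by
      apply pow_le_pow_right₀ (by norm_num)
      nlinarith
    have e3 : ((σ : ℝ) * 2 ^ (7 * v)) ^ (4 * k) ≤ p ^ (4 * k) := by
      apply pow_le_pow_left₀ (by positivity)
      rw [hp]
      exact_mod_cast hcard
    calc (k.factorial : ℝ) ^ 4 * 2 ^ (3 * b + 4 * v) ≤
        ((σ : ℝ) ^ k) ^ 4 * 2 ^ (7 * v * (4 * k)) := by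
          apply mul_le_mul (pow_le_pow_left₀ (by positivity) e1 4) e2 (by positivity)
            (by positivity)
      _ = ((σ : ℝ) * 2 ^ (7 * v)) ^ (4 * k) := by
          rw [mul_pow, ← pow_mul, ← pow_mul, mul_comm k 4]
      _ ≤ p ^ (4 * k) := e3
  calc ‖SS P (k + k + m) (c / 2 ^ b)‖ ^ 4 * 2 ^ (4 * v + b) ≤
      (p ^ (2 * m) * (p ^ (2 * k) * (k.factorial : ℝ) ^ 2 * 2 ^ b)) ^ 2 * 2 ^ (4 * v + b) := by
        apply mul_le_mul_of_nonneg_right h2 (by positivity)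
    _ = p ^ (4 * m + 4 * k) * ((k.factorial : ℝ) ^ 4 * 2 ^ (3 * b + 4 * v)) := by
        have e : (2 : ℝ) ^ (3 * b + 4 * v) = (2 ^ b) ^ 2 * 2 ^ (4 * v + b) := by
          rw [← pow_mul, ← pow_add]
          congr 1
          ring
        rw [e]
        ring
    _ ≤ p ^ (4 * m + 4 * k) * p ^ (4 * k) := by
        apply mul_le_mul_of_nonneg_left h3 (by positivity)
    _ = (p ^ (k + k + m)) ^ 4 := by
        rw [← pow_add, ← pow_mul]
        congr 1
        ring

/-- The exponential sum over an interval. -/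
noncomputable def NN (w : ℕ) (θ : ℝ) : ℂ := ∑ n ∈ range (2 ^ w), ee (n * θ)

theorem NN_le (w : ℕ) (θ : ℝ) : ‖NN w θ‖ ≤ 2 ^ w := by
  unfold NN
  refine (norm_sum_le _ _).trans ?_
  simp [norm_ee]

theorem NN_zero (w : ℕ) : NN w 0 = 2 ^ w := by
  unfold NN
  simp [ee_zero]

theorem SS_zero (P : Finset ℕ) (K : ℕ) : SS P K 0 = (P.card : ℂ) ^ K := by
  unfold SS
  simp only [mul_zero, ee_zero]
  rw [Finset.sum_const, Fintype.card_piFinset_const]
  simp

theorem ee_sum {ι : Type*} (s : Finset ι) (f : ι → ℝ) : ee (∑ i ∈ s, f i) = ∏ i ∈ s, ee (f i) := by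
  classical
  induction s using Finset.induction_on with
  | empty => simp [ee_zero]
  | insert a s ha ih => rw [Finset.sum_insert ha, Finset.prod_insert ha, ee_add, ih]

theorem SS_pow (P : Finset ℕ) (K : ℕ) (θ : ℝ) :
    SS P K θ ^ 4 = ∑ g ∈ Fintype.piFinset (fun _ : Fin 4 =>
      Fintype.piFinset (fun _ : Fin K => P)), ee (((∑ i, ∏ j, g i j : ℕ) : ℝ) * θ) := by
  have h1 : SS P K θ ^ 4 = ∏ _i : Fin 4, SS P K θ := by
    rw [Finset.prod_const, Finset.card_univ, Fintype.card_fin]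
  rw [h1]
  unfold SS
  rw [Finset.prod_univ_sum]
  apply Finset.sum_congr rfl
  intro g _
  rw [← ee_sum]
  congr 1
  push_cast
  rw [Finset.sum_mul]

theorem residue (v σ : ℕ) (P : Finset ℕ) (hv : 1 ≤ v)
    (hP : ∀ p ∈ P, p.Prime ∧ p ≠ 2 ∧ p < 2 ^ (8 * v)) (hσ : 1 ≤ σ)
    (hcard : σ * 2 ^ (7 * v) ≤ P.card) (r : ℕ) :
    ∃ (n : ℕ) (f : Fin 4 → Fin (2 * (σ / (8 * v))) → ℕ), n < 2 ^ (56 * v) ∧
      (∀ i j, f i j ∈ P) ∧ n + ∑ i, ∏ j, f i j ≡ r [MOD 2 ^ σ] := by
  set K := 2 * (σ / (8 * v)) with hK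
  have hM : 0 < 2 ^ σ := by positivity
  rcases Nat.lt_or_ge (56 * v) σ with hlt | hge
  swap
  · -- the easy case
    have hne : P.Nonempty := by
      rw [← Finset.card_pos]
      refine lt_of_lt_of_le ?_ hcard
      positivity
    obtain ⟨p, hp⟩ := hne
    refine ⟨(r + (2 ^ σ - (∑ _i : Fin 4, ∏ _j : Fin K, p) % 2 ^ σ)) % 2 ^ σ,
      fun _ _ => p, ?_, fun _ _ => hp, ?_⟩
    · refine lt_of_lt_of_le (Nat.mod_lt _ hM) ?_
      exact Nat.pow_le_pow_right (by norm_num) hge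
    · set s := ∑ _i : Fin 4, ∏ _j : Fin K, p with hs
      have h1 : (r + (2 ^ σ - s % 2 ^ σ)) % 2 ^ σ + s ≡ (r + (2 ^ σ - s % 2 ^ σ)) + s % 2 ^ σ
          [MOD 2 ^ σ] := by
        apply Nat.ModEq.add
        · exact Nat.mod_modEq _ _
        · exact (Nat.mod_modEq _ _).symm
      refine h1.trans ?_
      have h2 : r + (2 ^ σ - s % 2 ^ σ) + s % 2 ^ σ = r + 2 ^ σ := by
        have := Nat.mod_lt s hM
        omega
      rw [h2]
      exact Nat.add_modEq_right
  -- the Fourier argument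
  by_contra hcon
  push Not at hcon
  set M : ℕ := 2 ^ σ with hMdef
  set T := Fintype.piFinset (fun _ : Fin 4 => Fintype.piFinset (fun _ : Fin K => P)) with hT
  have hzero : ∑ a ∈ range M, ee (-(a * r / M)) * (NN (56 * v) (a / M) * SS P K (a / M) ^ 4) =
      0 := by
    have h1 : ∀ a ∈ range M, ee (-((a : ℝ) * r / M)) *
        (NN (56 * v) (a / M) * SS P K (a / M) ^ 4) =
        ∑ n ∈ range (2 ^ (56 * v)), ∑ g ∈ T,
          ee ((a : ℝ) * (((n + ∑ i, ∏ j, g i j : ℕ) : ℤ) - (r : ℤ) : ℤ) / M) := by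
      intro a _
      rw [SS_pow, NN, Finset.sum_mul_sum, Finset.mul_sum]
      apply Finset.sum_congr rfl
      intro n _
      rw [Finset.mul_sum]
      apply Finset.sum_congr rfl
      intro g _
      rw [← ee_add, ← ee_add]
      congr 1
      push_cast
      ring
    rw [Finset.sum_congr rfl h1, Finset.sum_comm]
    apply Finset.sum_eq_zero
    intro n hn
    rw [Finset.sum_comm]
    apply Finset.sum_eq_zero
    intro g hg
    rw [orth M (by omega)]
    rw [if_neg]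
    intro hdvd
    rw [hT, Fintype.mem_piFinset] at hg
    have hg' : ∀ i j, g i j ∈ P := fun i j => (Fintype.mem_piFinset.mp (hg i)) j
    apply hcon n g (Finset.mem_range.mp hn) hg'
    exact (Nat.modEq_iff_dvd.mpr (by
      have := hdvd
      rw [← neg_sub, dvd_neg] at this
      exact this))
  let gg : ℝ → ℝ := fun θ => ‖NN (56 * v) θ‖ * ‖SS P K θ‖ ^ 4
  have hg0 : gg 0 = 2 ^ (56 * v) * ((P.card : ℝ) ^ K) ^ 4 := by
    simp only [gg, NN_zero, SS_zero]
    simp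
  have hPc : 0 < (P.card : ℝ) := by
    have : 0 < P.card := lt_of_lt_of_le (by positivity) hcard
    exact_mod_cast this
  have hg0pos : 0 < gg 0 := by
    rw [hg0]
    positivity
  have hineq : gg 0 ≤ ∑ b ∈ range σ, ∑ c ∈ range (2 ^ b), gg ((2 * c + 1) / 2 ^ (b + 1)) := by
    have h1 := split σ gg
    have h2 : ∑ a ∈ range M, gg (a / M) = gg 0 + ∑ a ∈ (range M).erase 0, gg (a / M) := by
      rw [← Finset.add_sum_erase (range M) _ (Finset.mem_range.mpr hM)]
      simp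
    have h3 : gg 0 ≤ ∑ a ∈ (range M).erase 0, gg (a / M) := by
      have h4 := hzero
      rw [← Finset.add_sum_erase (range M) _ (Finset.mem_range.mpr hM)] at h4
      have h5 := eq_neg_of_add_eq_zero_left h4
      have h6 := congrArg norm h5
      rw [norm_neg, norm_mul, norm_ee, one_mul, norm_mul, norm_pow] at h6
      have h7 : gg 0 = ‖NN (56 * v) ((0 : ℕ) / M)‖ * ‖SS P K ((0 : ℕ) / M)‖ ^ 4 := by
        simp only [gg]
        simp
      rw [h7, h6]
      refine (norm_sum_le _ _).trans ?_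
      apply Finset.sum_le_sum
      intro a _
      rw [norm_mul, norm_ee, one_mul, norm_mul, norm_pow]
    have hcast : (M : ℝ) = 2 ^ σ := by
      rw [hMdef]
      push_cast
      rfl
    rw [← hMdef] at h1
    simp only [hcast] at h2 h3
    rw [h1] at h2
    linarith
  have hterm : ∀ b ∈ range σ, ∑ c ∈ range (2 ^ b), gg ((2 * c + 1) / 2 ^ (b + 1)) ≤
      gg 0 / 2 ^ (4 * v + 1) := by
    intro b hb
    have hb' := Finset.mem_range.mp hb
    rcases Nat.lt_or_ge b (56 * v) with h | h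
    · rw [Finset.sum_eq_zero]
      · positivity
      · intro c _
        have h1 := zero_sum (56 * v) (b + 1) (2 * c + 1) (by omega) (by omega) (by omega)
        have h2 : NN (56 * v) ((2 * c + 1) / 2 ^ (b + 1)) = 0 := by
          unfold NN
          rw [← h1]
          apply Finset.sum_congr rfl
          intro n _
          congr 1
          push_cast
          ring
        simp only [gg, h2, norm_zero, zero_mul]
    · have h1 : ∀ c ∈ range (2 ^ b), gg ((2 * c + 1) / 2 ^ (b + 1)) ≤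
          gg 0 / 2 ^ (4 * v + (b + 1)) := by
        intro c _
        have h2 := SS_fourth hv hP hσ hcard (b + 1) (2 * c + 1) (by omega) (by omega) (by omega)
        rw [← hK] at h2
        push_cast at h2
        have h3 := NN_le (56 * v) ((2 * c + 1) / 2 ^ (b + 1))
        simp only [gg]
        rw [le_div_iff₀ (by positivity), mul_assoc]
        rw [show ‖NN (56 * v) 0‖ * ‖SS P K 0‖ ^ 4 = gg 0 from rfl, hg0]
        exact mul_le_mul h3 h2 (by positivity) (by positivity)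
      refine (Finset.sum_le_sum h1).trans ?_
      rw [Finset.sum_const, Finset.card_range, nsmul_eq_mul]
      rw [Nat.cast_pow, Nat.cast_ofNat]
      apply le_of_eq
      have e : (2 : ℝ) ^ (4 * v + (b + 1)) = 2 ^ b * 2 ^ (4 * v + 1) := by
        rw [← pow_add]
        congr 1
        ring
      rw [e]
      field_simp
  have hsum := hineq.trans (Finset.sum_le_sum hterm)
  rw [Finset.sum_const, Finset.card_range, nsmul_eq_mul] at hsum
  have hσlt : σ < 2 ^ (4 * v + 1) := by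
    have h1 : P ⊆ range (2 ^ (8 * v)) := fun p hp => Finset.mem_range.mpr (hP p hp).2.2
    have h2 := Finset.card_le_card h1
    rw [Finset.card_range] at h2
    have h3 : σ * 2 ^ (7 * v) ≤ 2 ^ v * 2 ^ (7 * v) := by
      rw [← pow_add]
      have : v + 7 * v = 8 * v := by ring
      rw [this]
      exact hcard.trans h2
    have h4 : σ ≤ 2 ^ v := Nat.le_of_mul_le_mul_right h3 (by positivity)
    refine lt_of_le_of_lt h4 (Nat.pow_lt_pow_right (by norm_num) (by omega))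
  have hσr : (σ : ℝ) < 2 ^ (4 * v + 1) := by exact_mod_cast hσlt
  have : (σ : ℝ) * (gg 0 / 2 ^ (4 * v + 1)) < gg 0 := by
    rw [mul_div_assoc', div_lt_iff₀ (by positivity)]
    rw [mul_comm]
    exact mul_lt_mul_of_pos_left hσr hg0pos
  linarith

end H10.HD
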