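import Mathlib

/-!
Square matrices of `±1` polynomials which are (up to a factor) unitary on the unit circle.

`PU n A` : the family `A i j` (`i, j` in a finite type `ι`) of sequences with entries `±1` is such
that the matrix `M(u)` with entries `∑_{x < n} A i j x u^x` satisfies `M(u) M(u)* = |ι| n` for
all complex `u` with `|u| = 1`.  `Len s n` : there is such a family with `|ι| = 2^s`.

Calculus: `Len 0 1`; `Len s n → Len (s+1) n`; `Len s n → Len s (2 n)` for `s ≥ 1`;
`Len s n → Len s n' → Len s (2^s n n')`; `Len s n → Len s n' → Len (2 s + 1) (n + n')`.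
-/

namespace H10.HD

open Finset Matrix

/-- Value at `u` of the polynomial with coefficients `a 0, ..., a (n-1)`. -/
noncomputable def ev (a : ℕ → ℤ) (n : ℕ) (u : ℂ) : ℂ := ∑ x ∈ range n, (a x : ℂ) * u ^ x

/-- The matrix of values. -/
noncomputable def MM {ι : Type} (A : ι → ι → ℕ → ℤ) (n : ℕ) (u : ℂ) : Matrix ι ι ℂ :=
  Matrix.of fun i j => ev (A i j) n u

/-- Unitary families. -/
structure PU {ι : Type} [Fintype ι] [DecidableEq ι] (n : ℕ) (A : ι → ι → ℕ → ℤ) : Prop where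
  pm : ∀ i j x, A i j x = 1 ∨ A i j x = -1
  un : ∀ u : ℂ, star u * u = 1 →
    MM A n u * (MM A n u)ᴴ = ((Fintype.card ι * n : ℕ) : ℂ) • (1 : Matrix ι ι ℂ)

/-- There is a unitary family of size `2^s` and length `n`. -/
def Len (s n : ℕ) : Prop := ∃ A : Fin (2 ^ s) → Fin (2 ^ s) → ℕ → ℤ, PU n A

theorem MM_apply {ι : Type} (A : ι → ι → ℕ → ℤ) (n : ℕ) (u : ℂ) (i j : ι) :
    MM A n u i j = ev (A i j) n u := rfl

theorem ev_congr {a b : ℕ → ℤ} {n : ℕ} {u : ℂ} (h : ∀ x, x < n → a x = b x) :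
    ev a n u = ev b n u := by
  unfold ev
  apply Finset.sum_congr rfl
  intro x hx
  rw [h x (Finset.mem_range.mp hx)]

theorem ev_neg (a : ℕ → ℤ) (n : ℕ) (u : ℂ) : ev (fun x => - a x) n u = - ev a n u := by
  unfold ev
  rw [← Finset.sum_neg_distrib]
  apply Finset.sum_congr rfl
  intro x _
  push_cast
  ring

theorem ev_mul_const (a : ℕ → ℤ) (c : ℤ) (n : ℕ) (u : ℂ) :
    ev (fun x => a x * c) n u = ev a n u * c := by
  unfold ev
  rw [Finset.sum_mul]
  apply Finset.sum_congr rfl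
  intro x _
  push_cast
  ring

/-- Concatenation of sequences. -/
def cat (n : ℕ) (a b : ℕ → ℤ) : ℕ → ℤ := fun x => if x < n then a x else b (x - n)

theorem ev_cat (n m : ℕ) (a b : ℕ → ℤ) (u : ℂ) :
    ev (cat n a b) (n + m) u = ev a n u + u ^ n * ev b m u := by
  unfold ev
  rw [Finset.sum_range_add, Finset.mul_sum]
  congr 1
  · apply Finset.sum_congr rfl
    intro x hx
    simp [cat, Finset.mem_range.mp hx]
  · apply Finset.sum_congr rfl
    intro x _
    have : ¬ (n + x < n) := by omega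
    simp only [cat, this, if_false, Nat.add_sub_cancel_left]
    rw [pow_add]
    ring

theorem pm_cat {n : ℕ} {a b : ℕ → ℤ} (ha : ∀ x, a x = 1 ∨ a x = -1)
    (hb : ∀ x, b x = 1 ∨ b x = -1) (x : ℕ) : cat n a b x = 1 ∨ cat n a b x = -1 := by
  unfold cat
  split_ifs
  · exact ha x
  · exact hb _

theorem pm_mul {a b : ℤ} (ha : a = 1 ∨ a = -1) (hb : b = 1 ∨ b = -1) : a * b = 1 ∨ a * b = -1 := by
  rcases ha with h | h <;> rcases hb with h' | h' <;> simp [h, h']

theorem pm_neg {a : ℤ} (ha : a = 1 ∨ a = -1) : -a = 1 ∨ -a = -1 := by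
  rcases ha with h | h <;> simp [h]

/-- Reversal. -/
theorem ev_rev (a : ℕ → ℤ) (n : ℕ) (hn : 1 ≤ n) (u : ℂ) (hu : star u * u = 1) :
    ev (fun x => a (n - 1 - x)) n u = u ^ (n - 1) * star (ev a n u) := by
  unfold ev
  rw [star_sum, Finset.mul_sum, ← Finset.sum_range_reflect]
  apply Finset.sum_congr rfl
  intro x hx
  have hx' := Finset.mem_range.mp hx
  have e1 : n - 1 - (n - 1 - x) = x := by omega
  change ((a (n - 1 - (n - 1 - x)) : ℤ) : ℂ) * u ^ (n - 1 - x) = _
  rw [e1, star_mul', star_pow]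
  have e2 : u ^ (n - 1) = u ^ (n - 1 - x) * u ^ x := by
    rw [← pow_add]
    congr 1
    omega
  have e3 : u ^ x * (star u) ^ x = 1 := by
    rw [← mul_pow, mul_comm u, hu, one_pow]
  have e4 : star ((a x : ℤ) : ℂ) = (a x : ℂ) := by
    simp
  rw [e4, e2]
  calc (a x : ℂ) * u ^ (n - 1 - x) = (a x : ℂ) * u ^ (n - 1 - x) * 1 := by ring
    _ = (a x : ℂ) * u ^ (n - 1 - x) * (u ^ x * (star u) ^ x) := by rw [e3]
    _ = _ := by ring

theorem Len.of_type {ι : Type} [Fintype ι] [DecidableEq ι] {n s : ℕ} {A : ι → ι → ℕ → ℤ}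
    (hA : PU n A) (hc : Fintype.card ι = 2 ^ s) : Len s n := by
  have e : ι ≃ Fin (2 ^ s) := Fintype.equivFinOfCardEq hc
  refine ⟨fun i j => A (e.symm i) (e.symm j), fun i j x => hA.pm _ _ _, fun u hu => ?_⟩
  have h1 : MM (fun i j => A (e.symm i) (e.symm j)) n u = (MM A n u).submatrix e.symm e.symm := rfl
  rw [h1, Matrix.conjTranspose_submatrix, Matrix.submatrix_mul_equiv, hA.un u hu, hc,
    Fintype.card_fin]
  ext i j
  simp [Matrix.one_apply]

theorem Len.one : Len 0 1 := by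
  refine Len.of_type (ι := Unit) (A := fun _ _ _ => 1) ⟨fun _ _ _ => Or.inl rfl, ?_⟩ (by simp)
  intro u _
  ext i j
  simp [Matrix.mul_apply, MM, ev]

/-- The `2 × 2` Hadamard matrix. -/
def h2 (b c : Bool) : ℤ := if b && c then -1 else 1

theorem h2_pm (b c : Bool) : h2 b c = 1 ∨ h2 b c = -1 := by
  cases b <;> cases c <;> simp [h2]

theorem Len.up {s n : ℕ} (h : Len s n) : Len (s + 1) n := by
  obtain ⟨A, hA⟩ := h
  refine Len.of_type (ι := Fin (2 ^ s) × Bool)
    (A := fun i j x => A i.1 j.1 x * h2 i.2 j.2) ⟨fun i j x => pm_mul (hA.pm _ _ _) (h2_pm _ _), ?_⟩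
    (by simp [pow_succ])
  intro u hu
  set H : Matrix Bool Bool ℂ := Matrix.of fun b c => ((h2 b c : ℤ) : ℂ) with hH
  have h1 : MM (fun i j x => A i.1 j.1 x * h2 i.2 j.2) n u =
      Matrix.kroneckerMap (fun a b => a * b) (MM A n u) H := by
    ext i j
    simp only [MM_apply, Matrix.kroneckerMap_apply, hH, Matrix.of_apply]
    exact ev_mul_const (A i.1 j.1) (h2 i.2 j.2) n u
  have hHH : H * Hᴴ = (2 : ℂ) • (1 : Matrix Bool Bool ℂ) := by
    ext b c
    cases b <;> cases c <;> norm_num [Matrix.mul_apply, hH, h2]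
  rw [h1]
  have h3 : (Matrix.kroneckerMap (fun a b => a * b) (MM A n u) H)ᴴ =
      Matrix.kroneckerMap (fun a b => a * b) (MM A n u)ᴴ Hᴴ :=
    Matrix.conjTranspose_kronecker _ _
  rw [h3]
  have h4 := Matrix.mul_kronecker_mul (MM A n u) (MM A n u)ᴴ H Hᴴ
  change Matrix.kroneckerMap (fun a b => a * b) (MM A n u) H *
    Matrix.kroneckerMap (fun a b => a * b) (MM A n u)ᴴ Hᴴ = _
  rw [show Matrix.kroneckerMap (fun a b => a * b) (MM A n u) H *
    Matrix.kroneckerMap (fun a b => a * b) (MM A n u)ᴴ Hᴴ =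
    Matrix.kroneckerMap (fun a b => a * b) (MM A n u * (MM A n u)ᴴ) (H * Hᴴ) from h4.symm]
  rw [hA.un u hu, hHH]
  ext i j
  simp only [Matrix.kroneckerMap_apply, Matrix.smul_apply, Matrix.one_apply, smul_eq_mul,
    Fintype.card_fin, Fintype.card_prod, Fintype.card_bool, Prod.ext_iff]
  by_cases e1 : i.1 = j.1 <;> by_cases e2 : i.2 = j.2 <;> simp [e1, e2]
  ring

theorem Len.mono {s s' n : ℕ} (h : Len s n) (hs : s ≤ s') : Len s' n := by
  induction s', hs using Nat.le_induction with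
  | base => exact h
  | succ k _ ih => exact ih.up

end H10.HD
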