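import Mathlib
import Pool.Agent.H10.HD.PU

/-!
The calculus of unitary families: doubling, product, sum.
-/

namespace H10.HD

open Finset Matrix

theorem PU.reindex {ι κ : Type} [Fintype ι] [DecidableEq ι] [Fintype κ] [DecidableEq κ] {n : ℕ}
    {A : ι → ι → ℕ → ℤ} (hA : PU n A) (e : κ ≃ ι) : PU n (fun i j => A (e i) (e j)) := by
  refine ⟨fun i j x => hA.pm _ _ _, fun u hu => ?_⟩
  have h1 : MM (fun i j => A (e i) (e j)) n u = (MM A n u).submatrix e e := rfl
  rw [h1, Matrix.conjTranspose_submatrix, Matrix.submatrix_mul_equiv, hA.un u hu,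
    Fintype.card_congr e]
  ext i j
  simp [Matrix.one_apply]

theorem star_mul_pow {u : ℂ} (hu : star u * u = 1) (n : ℕ) : star (u ^ n) * u ^ n = 1 := by
  rw [star_pow, ← mul_pow, hu, one_pow]

theorem PU.un' {ι : Type} [Fintype ι] [DecidableEq ι] {n : ℕ} {A : ι → ι → ℕ → ℤ} (hA : PU n A)
    (hn : 1 ≤ n) {u : ℂ} (hu : star u * u = 1) :
    (MM A n u)ᴴ * MM A n u = ((Fintype.card ι * n : ℕ) : ℂ) • (1 : Matrix ι ι ℂ) := by
  rcases isEmpty_or_nonempty ι with hι | hι
  · ext i
    exact hι.elim i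
  have h := hA.un u hu
  set c : ℂ := ((Fintype.card ι * n : ℕ) : ℂ) with hc
  have hc0 : c ≠ 0 := by
    rw [hc]
    have : 0 < Fintype.card ι := Fintype.card_pos
    have : 0 < Fintype.card ι * n := by positivity
    exact_mod_cast this.ne'
  have h1 : (MM A n u) * (c⁻¹ • (MM A n u)ᴴ) = 1 := by
    rw [Matrix.mul_smul, h, smul_smul, inv_mul_cancel₀ hc0, one_smul]
  have h2 := mul_eq_one_comm.mp h1
  calc (MM A n u)ᴴ * MM A n u = c • ((c⁻¹ • (MM A n u)ᴴ) * MM A n u) := by
        rw [Matrix.smul_mul, smul_smul, mul_inv_cancel₀ hc0, one_smul]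
    _ = c • 1 := by rw [h2]

/-- Doubling. -/
theorem Len.double {s n : ℕ} (h : Len (s + 1) n) : Len (s + 1) (2 * n) := by
  obtain ⟨A₀, hA₀⟩ := h
  have e : Fin (2 ^ s) × Bool ≃ Fin (2 ^ (s + 1)) :=
    Fintype.equivOfCardEq (by simp [pow_succ])
  have hA := hA₀.reindex e
  set A : Fin (2 ^ s) × Bool → Fin (2 ^ s) × Bool → ℕ → ℤ := fun i j => A₀ (e i) (e j) with hAdef
  refine Len.of_type (ι := Fin (2 ^ s) × Bool)
    (A := fun i j => cat n (A i (j.1, false)) (fun x => A i (j.1, true) x * h2 true j.2))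
    ⟨fun i j x => pm_cat (fun x => hA.pm _ _ _) (fun x => pm_mul (hA.pm _ _ _) (h2_pm _ _)) x, ?_⟩
    (by simp [pow_succ])
  intro u hu
  let B : Matrix (Fin (2 ^ s) × Bool) (Fin (2 ^ s) × Bool) ℂ := Matrix.of fun i j =>
    if i.1 = j.1 then (if i.2 then u ^ n * ((h2 true j.2 : ℤ) : ℂ) else 1) else 0
  have hM : MM (fun i j => cat n (A i (j.1, false)) (fun x => A i (j.1, true) x * h2 true j.2))
      (2 * n) u = MM A n u * B := by
    ext i j
    rw [MM_apply, two_mul, ev_cat, ev_mul_const, Matrix.mul_apply, Fintype.sum_prod_type]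
    simp only [Fintype.sum_bool, B, Matrix.of_apply, MM_apply, if_true, Bool.false_eq_true,
      if_false]
    rw [Finset.sum_eq_single j.1]
    · simp only [if_true]
      ring
    · intro k _ hk
      simp [hk]
    · intro h
      exact absurd (Finset.mem_univ _) h
  have hB : B * Bᴴ = (2 : ℂ) • (1 : Matrix (Fin (2 ^ s) × Bool) (Fin (2 ^ s) × Bool) ℂ) := by
    have hun : u ^ n * star (u ^ n) = 1 := by rw [mul_comm]; exact star_mul_pow hu n
    ext i j
    rw [Matrix.mul_apply, Fintype.sum_prod_type]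
    simp only [Fintype.sum_bool, B, Matrix.of_apply, Matrix.conjTranspose_apply,
      Matrix.smul_apply, Matrix.one_apply, smul_eq_mul]
    by_cases h : i.1 = j.1
    · rw [Finset.sum_eq_single j.1]
      · obtain ⟨i1, i2⟩ := i
        obtain ⟨j1, j2⟩ := j
        simp only at h
        subst h
        cases i2 <;> cases j2
        · simp
          norm_num
        · simp [h2]
        · simp [h2]
        · simp only [h2, if_true, Bool.and_true, Bool.and_false,
            Bool.false_eq_true, if_false, star_mul', Int.cast_neg, Int.cast_one, star_neg,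
            star_one]
          have : u ^ n * -1 * (star (u ^ n) * -1) + u ^ n * 1 * (star (u ^ n) * 1) =
              2 * (u ^ n * star (u ^ n)) := by ring
          rw [this, hun]
      · intro k _ hk
        have : ¬ (i.1 = k) := fun h' => hk (by rw [← h', h])
        simp [this]
      · intro h'
        exact absurd (Finset.mem_univ _) h'
    · rw [Finset.sum_eq_zero]
      · have : i ≠ j := fun h' => h (by rw [h'])
        simp [this]
      · intro k _
        by_cases h1 : i.1 = k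
        · have : ¬ (j.1 = k) := fun h' => h (by rw [h1, h'])
          simp [this]
        · simp [h1]
  rw [hM, Matrix.conjTranspose_mul, Matrix.mul_assoc, ← Matrix.mul_assoc B, hB, Matrix.smul_mul,
    Matrix.one_mul, Matrix.mul_smul, hA.un u hu, smul_smul]
  congr 1
  push_cast
  ring

theorem sum_range_mul (f : ℕ → ℂ) (a b : ℕ) :
    ∑ x ∈ range (a * b), f x = ∑ y ∈ range b, ∑ z ∈ range a, f (a * y + z) := by
  induction b with
  | zero => simp
  | succ b ih =>
    rw [Nat.mul_succ, Finset.sum_range_add, ih, Finset.sum_range_succ]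

/-- Product. -/
theorem Len.mul {s n m : ℕ} (h : Len s n) (h' : Len s m) (hm : 1 ≤ m) :
    Len s (m * (2 ^ s * n)) := by
  obtain ⟨A, hA⟩ := h
  obtain ⟨A', hA'⟩ := h'
  have hK : 0 < 2 ^ s := by positivity
  let l : ℕ → Fin (2 ^ s) := fun x => ⟨(x / m) % 2 ^ s, Nat.mod_lt _ hK⟩
  refine ⟨fun i j x => A i (l x) (x / m / 2 ^ s) * A' (l x) j (x % m),
    fun i j x => pm_mul (hA.pm _ _ _) (hA'.pm _ _ _), ?_⟩
  intro u hu
  set v : ℂ := u ^ (m * 2 ^ s) with hv
  have hv1 : star v * v = 1 := star_mul_pow hu _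
  have hM : MM (fun i j x => A i (l x) (x / m / 2 ^ s) * A' (l x) j (x % m))
      (m * (2 ^ s * n)) u =
      MM A n v * Matrix.diagonal (fun l : Fin (2 ^ s) => u ^ (m * (l : ℕ))) * MM A' m u := by
    ext i j
    rw [MM_apply, Matrix.mul_apply]
    unfold ev
    rw [sum_range_mul, sum_range_mul, Finset.sum_comm, Finset.sum_range]
    apply Finset.sum_congr rfl
    intro k _
    rw [Matrix.mul_diagonal, MM_apply, MM_apply]
    unfold ev
    rw [mul_assoc, Finset.sum_mul]
    apply Finset.sum_congr rfl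
    intro a _
    rw [Finset.mul_sum, Finset.mul_sum]
    apply Finset.sum_congr rfl
    intro b hb
    have hb' := Finset.mem_range.mp hb
    have e1 : (m * (2 ^ s * a + (k : ℕ)) + b) / m = 2 ^ s * a + k := by
      rw [Nat.mul_add_div (by omega), Nat.div_eq_of_lt hb', Nat.add_zero]
    have e2 : (m * (2 ^ s * a + (k : ℕ)) + b) % m = b := by
      rw [Nat.mul_add_mod, Nat.mod_eq_of_lt hb']
    have e3 : (2 ^ s * a + (k : ℕ)) % 2 ^ s = k := by
      rw [Nat.mul_add_mod, Nat.mod_eq_of_lt k.2]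
    have e4 : (2 ^ s * a + (k : ℕ)) / 2 ^ s = a := by
      rw [Nat.mul_add_div hK, Nat.div_eq_of_lt k.2, Nat.add_zero]
    have e5 : l (m * (2 ^ s * a + (k : ℕ)) + b) = k := by
      apply Fin.ext
      change (m * (2 ^ s * a + (k : ℕ)) + b) / m % 2 ^ s = k
      rw [e1, e3]
    beta_reduce
    rw [e5, e1, e2, e4, hv]
    push_cast
    ring
  have hD : Matrix.diagonal (fun l : Fin (2 ^ s) => u ^ (m * (l : ℕ))) *
      (Matrix.diagonal (fun l : Fin (2 ^ s) => u ^ (m * (l : ℕ))))ᴴ = 1 := by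
    rw [Matrix.diagonal_conjTranspose, Matrix.diagonal_mul_diagonal, ← Matrix.diagonal_one]
    congr 1
    funext k
    change u ^ (m * (k : ℕ)) * star (u ^ (m * (k : ℕ))) = 1
    rw [mul_comm]
    exact star_mul_pow hu _
  rw [hM, Matrix.conjTranspose_mul, Matrix.conjTranspose_mul]
  set D := Matrix.diagonal (fun l : Fin (2 ^ s) => u ^ (m * (l : ℕ))) with hDdef
  have : MM A n v * D * MM A' m u * ((MM A' m u)ᴴ * (Dᴴ * (MM A n v)ᴴ)) =
      MM A n v * D * (MM A' m u * (MM A' m u)ᴴ) * (Dᴴ * (MM A n v)ᴴ) := by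
    simp only [Matrix.mul_assoc]
  rw [this, hA'.un u hu, Matrix.mul_smul, Matrix.mul_one, Matrix.smul_mul]
  have h2 : MM A n v * D * (Dᴴ * (MM A n v)ᴴ) = MM A n v * (D * Dᴴ) * (MM A n v)ᴴ := by
    simp only [Matrix.mul_assoc]
  rw [h2, hD, Matrix.mul_one, hA.un v hv1, smul_smul]
  congr 1
  rw [Fintype.card_fin]
  push_cast
  ring

end H10.HD
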