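import Mathlib
import Pool.Agent.H10.HD.PU2

/-!
The calculus of unitary families: sum of two lengths.
-/

namespace H10.HD

open Finset Matrix

/-- Two commuting matrices `X, Y` with `X X* = X* X = a`, `Y Y* = Y* Y = b` give a unitary
block matrix. -/
theorem block_unitary {ι : Type} [Fintype ι] [DecidableEq ι] (X Y : Matrix ι ι ℂ) (a b α β γ : ℂ)
    (hα : star α * α = 1) (hβ : star β * β = 1) (hγ : star γ * γ = 1)
    (hX : X * Xᴴ = a • (1 : Matrix ι ι ℂ)) (hX' : Xᴴ * X = a • (1 : Matrix ι ι ℂ))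
    (hY : Y * Yᴴ = b • (1 : Matrix ι ι ℂ)) (hY' : Yᴴ * Y = b • (1 : Matrix ι ι ℂ))
    (hXY : X * Y = Y * X) (hαβγ : γ = α * β) :
    Matrix.fromBlocks (X + α • Y) (X - α • Y) (β • Yᴴ - γ • Xᴴ) (β • Yᴴ + γ • Xᴴ) *
      (Matrix.fromBlocks (X + α • Y) (X - α • Y) (β • Yᴴ - γ • Xᴴ) (β • Yᴴ + γ • Xᴴ))ᴴ =
      (2 * (a + b)) • (1 : Matrix (ι ⊕ ι) (ι ⊕ ι) ℂ) := by
  have hα' : α * star α = 1 := by rw [mul_comm]; exact hα
  have hYX : Yᴴ * Xᴴ = Xᴴ * Yᴴ := by
    rw [← Matrix.conjTranspose_mul, hXY, Matrix.conjTranspose_mul]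
  rw [Matrix.fromBlocks_conjTranspose, Matrix.fromBlocks_multiply]
  have hone : (2 * (a + b)) • (1 : Matrix (ι ⊕ ι) (ι ⊕ ι) ℂ) =
      Matrix.fromBlocks ((2 * (a + b)) • (1 : Matrix ι ι ℂ)) 0 0
        ((2 * (a + b)) • (1 : Matrix ι ι ℂ)) := by
    rw [← Matrix.fromBlocks_one, Matrix.fromBlocks_smul, smul_zero]
  rw [hone]
  congr 1
  · simp only [Matrix.conjTranspose_add, Matrix.conjTranspose_sub, Matrix.conjTranspose_smul,
      add_mul, mul_add, sub_mul, mul_sub, Matrix.smul_mul, Matrix.mul_smul, smul_smul, hX, hY]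
    have e1 : star α * (α * b) = b := by rw [← mul_assoc, hα, one_mul]
    rw [e1]
    module
  · simp only [Matrix.conjTranspose_add, Matrix.conjTranspose_sub, Matrix.conjTranspose_smul,
      Matrix.conjTranspose_conjTranspose,
      add_mul, mul_add, sub_mul, mul_sub, Matrix.smul_mul, Matrix.mul_smul, smul_smul]
    rw [← hXY]
    have e2 : star γ * α = star β := by
      rw [mul_comm, hαβγ, star_mul', ← mul_assoc, hα', one_mul]
    simp only [e2]
    module
  · simp only [Matrix.conjTranspose_add, Matrix.conjTranspose_sub, Matrix.conjTranspose_smul,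
      add_mul, mul_add, sub_mul, mul_sub, Matrix.smul_mul, Matrix.mul_smul, smul_smul]
    rw [hYX]
    have e2 : star α * γ = β := by
      rw [hαβγ, ← mul_assoc, hα, one_mul]
    simp only [e2]
    module
  · simp only [Matrix.conjTranspose_add, Matrix.conjTranspose_sub, Matrix.conjTranspose_smul,
      Matrix.conjTranspose_conjTranspose,
      add_mul, mul_add, sub_mul, mul_sub, Matrix.smul_mul, Matrix.mul_smul, smul_smul, hX', hY']
    have e1 : star β * (β * b) = b := by rw [← mul_assoc, hβ, one_mul]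
    have e2 : star γ * (γ * a) = a := by rw [← mul_assoc, hγ, one_mul]
    rw [e1, e2]
    module

section Add

set_option linter.unusedSectionVars false

variable {K : ℕ} [NeZero K] (n m : ℕ) (U V : Fin K → Fin K → ℕ → ℤ) (h : Fin K → Fin K → ℤ)

/-- Parts of the entries of the sum. -/
def upart (r c : Fin K × Fin K) (t : ℕ) : ℤ := U r.1 (r.2 - c.1) t * h (r.2 - c.1) c.2

/-- Parts of the entries of the sum. -/
def vpart (r c : Fin K × Fin K) (t : ℕ) : ℤ := V r.2 (r.1 + c.1) t * h r.1 c.2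

/-- Parts of the entries of the sum. -/
def udag (r c : Fin K × Fin K) (t : ℕ) : ℤ :=
  U (r.2 - c.1) r.1 (n - 1 - t) * h (r.2 - c.1) c.2

/-- Parts of the entries of the sum. -/
def vdag (r c : Fin K × Fin K) (t : ℕ) : ℤ := V (r.1 + c.1) r.2 (m - 1 - t) * h r.1 c.2

/-- The entries of the sum. -/
def sumT : (Fin K × Fin K) ⊕ (Fin K × Fin K) → (Fin K × Fin K) ⊕ (Fin K × Fin K) → ℕ → ℤ
  | .inl r, .inl c => cat n (upart U h r c) (vpart V h r c)
  | .inl r, .inr c => cat n (upart U h r c) (fun t => - vpart V h r c t)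
  | .inr r, .inl c => cat m (vdag m V h r c) (fun t => - udag n U h r c t)
  | .inr r, .inr c => cat m (vdag m V h r c) (udag n U h r c)

/-- The matrix `U ⊗ 1`. -/
def kl (P : Matrix (Fin K) (Fin K) ℂ) : Matrix (Fin K × Fin K) (Fin K × Fin K) ℂ :=
  Matrix.of fun r c => if r.2 = c.2 then P r.1 c.1 else 0

/-- The matrix `1 ⊗ V`. -/
def kr (Q : Matrix (Fin K) (Fin K) ℂ) : Matrix (Fin K × Fin K) (Fin K × Fin K) ℂ :=
  Matrix.of fun r c => if r.1 = c.1 then Q r.2 c.2 else 0

/-- The weighing matrix. -/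
def CC : Matrix (Fin K × Fin K) (Fin K × Fin K) ℂ :=
  Matrix.of fun r c => if r.2 = r.1 + c.1 then ((h r.1 c.2 : ℤ) : ℂ) else 0

theorem kl_mul (P P' : Matrix (Fin K) (Fin K) ℂ) : kl P * kl P' = kl (P * P') := by
  ext r c
  rw [Matrix.mul_apply, Fintype.sum_prod_type]
  simp only [kl, Matrix.of_apply]
  by_cases hrc : r.2 = c.2
  · rw [if_pos hrc, Matrix.mul_apply]
    apply Finset.sum_congr rfl
    intro a _
    rw [Finset.sum_eq_single c.2]
    · simp [hrc]
    · intro b _ hb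
      simp [hb]
    · intro h'
      exact absurd (Finset.mem_univ _) h'
  · rw [if_neg hrc]
    apply Finset.sum_eq_zero
    intro a _
    apply Finset.sum_eq_zero
    intro b _
    by_cases h1 : r.2 = b
    · have : b ≠ c.2 := fun h' => hrc (by rw [h1, h'])
      simp [this]
    · simp [h1]

theorem kr_mul (P P' : Matrix (Fin K) (Fin K) ℂ) : kr P * kr P' = kr (P * P') := by
  ext r c
  rw [Matrix.mul_apply, Fintype.sum_prod_type_right]
  simp only [kr, Matrix.of_apply]
  by_cases hrc : r.1 = c.1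
  · rw [if_pos hrc, Matrix.mul_apply]
    apply Finset.sum_congr rfl
    intro a _
    rw [Finset.sum_eq_single c.1]
    · simp [hrc]
    · intro b _ hb
      simp [hb]
    · intro h'
      exact absurd (Finset.mem_univ _) h'
  · rw [if_neg hrc]
    apply Finset.sum_eq_zero
    intro a _
    apply Finset.sum_eq_zero
    intro b _
    by_cases h1 : r.1 = b
    · have : b ≠ c.1 := fun h' => hrc (by rw [h1, h'])
      simp [this]
    · simp [h1]

theorem kl_kr (P Q : Matrix (Fin K) (Fin K) ℂ) : kl P * kr Q = kr Q * kl P := by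
  have e1 : kl P * kr Q = Matrix.of fun r c => P r.1 c.1 * Q r.2 c.2 := by
    ext r c
    rw [Matrix.mul_apply, Fintype.sum_prod_type]
    simp only [kl, kr, Matrix.of_apply]
    rw [Finset.sum_eq_single c.1]
    · rw [Finset.sum_eq_single r.2]
      · simp
      · intro b _ hb
        simp [Ne.symm hb]
      · intro h'
        exact absurd (Finset.mem_univ _) h'
    · intro a _ ha
      apply Finset.sum_eq_zero
      intro b _
      simp [ha]
    · intro h'
      exact absurd (Finset.mem_univ _) h'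
  have e2 : kr Q * kl P = Matrix.of fun r c => P r.1 c.1 * Q r.2 c.2 := by
    ext r c
    rw [Matrix.mul_apply, Fintype.sum_prod_type]
    simp only [kl, kr, Matrix.of_apply]
    rw [Finset.sum_eq_single r.1]
    · rw [Finset.sum_eq_single c.2]
      · simp [mul_comm]
      · intro b _ hb
        simp [hb]
      · intro h'
        exact absurd (Finset.mem_univ _) h'
    · intro a _ ha
      apply Finset.sum_eq_zero
      intro b _
      simp [Ne.symm ha]
    · intro h'
      exact absurd (Finset.mem_univ _) h'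
  rw [e1, e2]

theorem kl_conj (P : Matrix (Fin K) (Fin K) ℂ) : (kl P)ᴴ = kl Pᴴ := by
  ext r c
  simp only [kl, Matrix.of_apply, Matrix.conjTranspose_apply]
  by_cases h1 : c.2 = r.2
  · rw [if_pos h1, if_pos h1.symm]
  · rw [if_neg h1, if_neg (Ne.symm h1), star_zero]

theorem kr_conj (P : Matrix (Fin K) (Fin K) ℂ) : (kr P)ᴴ = kr Pᴴ := by
  ext r c
  simp only [kr, Matrix.of_apply, Matrix.conjTranspose_apply]
  by_cases h1 : c.1 = r.1
  · rw [if_pos h1, if_pos h1.symm]
  · rw [if_neg h1, if_neg (Ne.symm h1), star_zero]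

theorem kl_smul_one (a : ℂ) : kl (a • (1 : Matrix (Fin K) (Fin K) ℂ)) = a • 1 := by
  ext r c
  simp only [kl, Matrix.of_apply, Matrix.smul_apply, Matrix.one_apply, Prod.ext_iff, smul_eq_mul]
  by_cases h1 : r.1 = c.1 <;> by_cases h2 : r.2 = c.2 <;> simp [h1, h2]

theorem kr_smul_one (a : ℂ) : kr (a • (1 : Matrix (Fin K) (Fin K) ℂ)) = a • 1 := by
  ext r c
  simp only [kr, Matrix.of_apply, Matrix.smul_apply, Matrix.one_apply, Prod.ext_iff, smul_eq_mul]
  by_cases h1 : r.1 = c.1 <;> by_cases h2 : r.2 = c.2 <;> simp [h1, h2]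

theorem kl_CC (P : Matrix (Fin K) (Fin K) ℂ) (r c : Fin K × Fin K) :
    (kl P * CC h) r c = P r.1 (r.2 - c.1) * ((h (r.2 - c.1) c.2 : ℤ) : ℂ) := by
  rw [Matrix.mul_apply, Fintype.sum_prod_type]
  simp only [kl, CC, Matrix.of_apply]
  rw [Finset.sum_eq_single (r.2 - c.1)]
  · rw [Finset.sum_eq_single r.2]
    · simp
    · intro b _ hb
      simp [Ne.symm hb]
    · intro h'
      exact absurd (Finset.mem_univ _) h'
  · intro a _ ha
    apply Finset.sum_eq_zero
    intro b _
    by_cases h1 : r.2 = b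
    · have : ¬ (b = a + c.1) := fun h' => ha (by rw [h1, h', add_sub_cancel_right])
      simp [this]
    · simp [h1]
  · intro h'
    exact absurd (Finset.mem_univ _) h'

theorem kr_CC (Q : Matrix (Fin K) (Fin K) ℂ) (r c : Fin K × Fin K) :
    (kr Q * CC h) r c = Q r.2 (r.1 + c.1) * ((h r.1 c.2 : ℤ) : ℂ) := by
  rw [Matrix.mul_apply, Fintype.sum_prod_type]
  simp only [kr, CC, Matrix.of_apply]
  rw [Finset.sum_eq_single r.1]
  · rw [Finset.sum_eq_single (r.1 + c.1)]
    · simp
    · intro b _ hb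
      simp [hb]
    · intro h'
      exact absurd (Finset.mem_univ _) h'
  · intro a _ ha
    apply Finset.sum_eq_zero
    intro b _
    simp [Ne.symm ha]
  · intro h'
    exact absurd (Finset.mem_univ _) h'

theorem CC_mul (hH : ∀ a a' : Fin K, ∑ y, ((h a y : ℤ) : ℂ) * ((h a' y : ℤ) : ℂ) =
      if a = a' then (K : ℂ) else 0) : CC h * (CC h)ᴴ = (K : ℂ) • 1 := by
  ext r c
  rw [Matrix.mul_apply, Fintype.sum_prod_type]
  simp only [CC, Matrix.of_apply, Matrix.conjTranspose_apply, Matrix.smul_apply, Matrix.one_apply,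
    smul_eq_mul]
  have h3 : ∀ (a y : Fin K), star ((h a y : ℤ) : ℂ) = ((h a y : ℤ) : ℂ) := by
    intro a y
    simp
  rw [Finset.sum_eq_single (r.2 - r.1)]
  · have h1 : r.2 = r.1 + (r.2 - r.1) := by abel
    by_cases h2 : c.2 = c.1 + (r.2 - r.1)
    · simp only [if_pos h2, if_pos h1, h3]
      rw [hH]
      by_cases h4 : r.1 = c.1
      · have h5 : r = c := by
          apply Prod.ext h4
          rw [h2, ← h4, add_sub_cancel]
        simp [h5]
      · have h5 : r ≠ c := fun h' => h4 (by rw [h'])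
        simp [h4, h5]
    · have h5 : r ≠ c := by
        intro h'
        apply h2
        rw [h', add_sub_cancel]
      simp [h2, h5]
  · intro x _ hx
    apply Finset.sum_eq_zero
    intro y _
    have : ¬ (r.2 = r.1 + x) := by
      intro h'
      apply hx
      rw [h', add_sub_cancel_left]
    simp [this]
  · intro h'
    exact absurd (Finset.mem_univ _) h'

variable {n m U V h}

theorem sumT_PU (hU : PU n U) (hV : PU m V) (hn : 1 ≤ n) (hm : 1 ≤ m)
    (hpm : ∀ i j, h i j = 1 ∨ h i j = -1)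
    (hH : ∀ a a' : Fin K, ∑ y, ((h a y : ℤ) : ℂ) * ((h a' y : ℤ) : ℂ) =
      if a = a' then (K : ℂ) else 0) : PU (n + m) (sumT n m U V h) := by
  have up_pm : ∀ r c t, upart U h r c t = 1 ∨ upart U h r c t = -1 :=
    fun r c t => pm_mul (hU.pm _ _ _) (hpm _ _)
  have vp_pm : ∀ r c t, vpart V h r c t = 1 ∨ vpart V h r c t = -1 :=
    fun r c t => pm_mul (hV.pm _ _ _) (hpm _ _)
  have ud_pm : ∀ r c t, udag n U h r c t = 1 ∨ udag n U h r c t = -1 :=
    fun r c t => pm_mul (hU.pm _ _ _) (hpm _ _)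
  have vd_pm : ∀ r c t, vdag m V h r c t = 1 ∨ vdag m V h r c t = -1 :=
    fun r c t => pm_mul (hV.pm _ _ _) (hpm _ _)
  refine ⟨?_, ?_⟩
  · rintro (r | r) (c | c) t
    · exact pm_cat (up_pm r c) (vp_pm r c) t
    · exact pm_cat (up_pm r c) (fun t => pm_neg (vp_pm r c t)) t
    · exact pm_cat (vd_pm r c) (fun t => pm_neg (ud_pm r c t)) t
    · exact pm_cat (vd_pm r c) (ud_pm r c) t
  intro u hu
  set P := MM U n u with hP
  set Q := MM V m u with hQ
  have eu : ∀ r c, ev (upart U h r c) n u = (kl P * CC h) r c := by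
    intro r c
    rw [kl_CC]
    exact ev_mul_const _ _ _ _
  have evp : ∀ r c, ev (vpart V h r c) m u = (kr Q * CC h) r c := by
    intro r c
    rw [kr_CC]
    exact ev_mul_const _ _ _ _
  have eud : ∀ r c, ev (udag n U h r c) n u = u ^ (n - 1) * (kl Pᴴ * CC h) r c := by
    intro r c
    rw [kl_CC, ← mul_assoc]
    have h1 := ev_mul_const (fun t => U (r.2 - c.1) r.1 (n - 1 - t)) (h (r.2 - c.1) c.2) n u
    have h2 := ev_rev (U (r.2 - c.1) r.1) n hn u hu
    rw [h2] at h1
    exact h1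
  have evd : ∀ r c, ev (vdag m V h r c) m u = u ^ (m - 1) * (kr Qᴴ * CC h) r c := by
    intro r c
    rw [kr_CC, ← mul_assoc]
    have h1 := ev_mul_const (fun t => V (r.1 + c.1) r.2 (m - 1 - t)) (h r.1 c.2) m u
    have h2 := ev_rev (V (r.1 + c.1) r.2) m hm u hu
    rw [h2] at h1
    exact h1
  set α : ℂ := u ^ n with hα
  set β : ℂ := u ^ (m - 1) with hβ
  set γ : ℂ := u ^ (m + (n - 1)) with hγ
  have hαβγ : γ = α * β := by
    rw [hα, hβ, hγ, ← pow_add]
    congr 1
    omega
  have hM : MM (sumT n m U V h) (n + m) u =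
      Matrix.fromBlocks (kl P + α • kr Q) (kl P - α • kr Q) (β • (kr Q)ᴴ - γ • (kl P)ᴴ)
        (β • (kr Q)ᴴ + γ • (kl P)ᴴ) * Matrix.fromBlocks (CC h) 0 0 (CC h) := by
    rw [Matrix.fromBlocks_multiply]
    ext r c
    rcases r with r | r <;> rcases c with c | c
    · rw [MM_apply, Matrix.fromBlocks_apply₁₁, Matrix.mul_zero, add_zero, add_mul,
        Matrix.add_apply, Matrix.smul_mul, Matrix.smul_apply, ← eu, ← evp]
      exact ev_cat _ _ _ _ _
    · rw [MM_apply, Matrix.fromBlocks_apply₁₂, Matrix.mul_zero, zero_add, sub_mul,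
        Matrix.sub_apply, Matrix.smul_mul, Matrix.smul_apply, ← eu, ← evp]
      have := ev_cat n m (upart U h r c) (fun t => - vpart V h r c t) u
      rw [ev_neg] at this
      rw [sub_eq_add_neg, smul_eq_mul, ← mul_neg]
      exact this
    · rw [MM_apply, Matrix.fromBlocks_apply₂₁, Matrix.mul_zero, add_zero, sub_mul,
        Matrix.sub_apply, Matrix.smul_mul, Matrix.smul_mul, Matrix.smul_apply, Matrix.smul_apply,
        kl_conj, kr_conj, smul_eq_mul, smul_eq_mul, hβ, ← evd, hγ, pow_add, mul_assoc, ← eud]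
      have := ev_cat m n (vdag m V h r c) (fun t => - udag n U h r c t) u
      rw [ev_neg] at this
      rw [sub_eq_add_neg, ← mul_neg, add_comm n m]
      exact this
    · rw [MM_apply, Matrix.fromBlocks_apply₂₂, Matrix.mul_zero, zero_add, add_mul,
        Matrix.add_apply, Matrix.smul_mul, Matrix.smul_mul, Matrix.smul_apply, Matrix.smul_apply,
        kl_conj, kr_conj, smul_eq_mul, smul_eq_mul, hβ, ← evd, hγ, pow_add, mul_assoc, ← eud,
        add_comm n m]
      exact ev_cat m n (vdag m V h r c) (udag n U h r c) u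
  have hCC := CC_mul h hH
  have hCC2 : Matrix.fromBlocks (CC h) 0 0 (CC h) * (Matrix.fromBlocks (CC h) 0 0 (CC h))ᴴ =
      (K : ℂ) • (1 : Matrix ((Fin K × Fin K) ⊕ (Fin K × Fin K)) _ ℂ) := by
    rw [Matrix.fromBlocks_conjTranspose, Matrix.fromBlocks_multiply, hCC, ← Matrix.fromBlocks_one,
      Matrix.fromBlocks_smul]
    simp
  have hX : kl P * (kl P)ᴴ = ((Fintype.card (Fin K) * n : ℕ) : ℂ) • 1 := by
    rw [kl_conj, kl_mul, hU.un u hu, kl_smul_one]
  have hX' : (kl P)ᴴ * kl P = ((Fintype.card (Fin K) * n : ℕ) : ℂ) • 1 := by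
    rw [kl_conj, kl_mul, hU.un' hn hu, kl_smul_one]
  have hY : kr Q * (kr Q)ᴴ = ((Fintype.card (Fin K) * m : ℕ) : ℂ) • 1 := by
    rw [kr_conj, kr_mul, hV.un u hu, kr_smul_one]
  have hY' : (kr Q)ᴴ * kr Q = ((Fintype.card (Fin K) * m : ℕ) : ℂ) • 1 := by
    rw [kr_conj, kr_mul, hV.un' hm hu, kr_smul_one]
  have hmain := block_unitary (kl P) (kr Q) _ _ α β γ (star_mul_pow hu _) (star_mul_pow hu _)
    (star_mul_pow hu _) hX hX' hY hY' (kl_kr P Q) hαβγ
  rw [hM, Matrix.conjTranspose_mul, Matrix.mul_assoc, ← Matrix.mul_assoc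
    (Matrix.fromBlocks (CC h) 0 0 (CC h)), hCC2, Matrix.smul_mul, Matrix.one_mul, Matrix.mul_smul,
    hmain, smul_smul]
  congr 1
  simp only [Fintype.card_sum, Fintype.card_prod, Fintype.card_fin]
  push_cast
  ring

end Add

/-- Sum of two lengths. -/
theorem Len.add {s n m : ℕ} (h : Len s n) (h' : Len s m) (hn : 1 ≤ n) (hm : 1 ≤ m) :
    Len (2 * s + 1) (n + m) := by
  obtain ⟨U, hU⟩ := h
  obtain ⟨V, hV⟩ := h'
  obtain ⟨H₀, hH₀⟩ := Len.one.mono (Nat.zero_le s)
  have hK0 : 0 < 2 ^ s := by positivity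
  have : NeZero (2 ^ s) := ⟨hK0.ne'⟩
  refine Len.of_type (sumT_PU (h := fun i j => H₀ i j 0) hU hV hn hm
    (fun i j => hH₀.pm i j 0) ?_) ?_
  · intro a a'
    have h1 := hH₀.un 1 (by simp)
    have h2 := congrFun (congrFun h1 a) a'
    rw [Matrix.mul_apply] at h2
    simp only [MM, ev, Matrix.of_apply, Matrix.conjTranspose_apply, Finset.sum_range_one, pow_zero,
      mul_one, Matrix.smul_apply, Matrix.one_apply, Fintype.card_fin, smul_eq_mul] at h2
    have h3 : ∀ x, star ((H₀ a' x 0 : ℤ) : ℂ) = ((H₀ a' x 0 : ℤ) : ℂ) := by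
      intro x
      simp
    simp only [h3] at h2
    rw [h2]
    split_ifs <;> simp
  · rw [Fintype.card_sum, Fintype.card_prod, Fintype.card_fin, pow_succ, pow_mul']
    ring

end H10.HD
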