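import Mathlib
import Pool.Agent.H10.HD.PU3

/-!
MODULE Seq (about 100 lines).  Sums and products of many lengths (use `Len.up`, `Len.mono`, `Len.double`,
`Len.mul`, `Len.add`, `Len.one` of PU, PU2, PU3).

`Len.list`: induction on `j`.  `j = 0`: the list has one element.  Step: split with `List.take (2^j)`,
`List.drop (2^j)`; if one part is empty use the other part and `Len.mono`; else both sums are `≥ 1`, both
are in `Len (2^j (s+1) - 1)`, and `Len.add` gives `Len (2 (2^j (s+1) - 1) + 1)`, `2 (2^j (s+1) - 1) + 1 = 2^(j+1) (s+1) - 1`.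
`Len.two_pow`: `Len 1 (2^e)`: `Len.one.up` and `Len.double`.
`Len.piece`: induction on the list; `f = []`: `Len.two_pow` and `mono` (`s ≥ 1`); `f = x :: f'`: `Len.mul` applied to `x` and
`2^(e-s) f'.prod` gives `2^(e-s) f'.prod * (2^s * x) = 2^e (x f'.prod)` (or the other order).
`Len.double_pow`: `Len s n → Len s (2^e n)` for `s ≥ 1`.
`Len.small`: the binary digits: `n < 2^B`, `n ≥ 1` is the sum of a nonempty list of at most `B` powers of two (for example
`Nat.bitIndices`: `Nat.twoPowSum_bitIndices`, or induction on `B`), each in `Len 1`; take `j` with `B ≤ 2^j < 2 B`: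
`Len (2^j * 2 - 1)`, `2^j * 2 - 1 ≤ 4 B - 1`.
-/

namespace H10.HD

theorem Len.double_pow {s n : ℕ} (hs : 1 ≤ s) (h : Len s n) (e : ℕ) : Len s (2 ^ e * n) := by
  obtain ⟨s', rfl⟩ : ∃ s', s = s' + 1 := ⟨s - 1, by omega⟩
  induction e with
  | zero => simpa using h
  | succ e ih =>
    have h1 := ih.double
    have h2 : 2 * (2 ^ e * n) = 2 ^ (e + 1) * n := by ring
    rw [h2] at h1
    exact h1

private theorem Seq_sum_pos (l : List ℕ) (hl : ∀ x ∈ l, 1 ≤ x) (hne : l ≠ []) : 1 ≤ l.sum := by
  cases l with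
  | nil => exact absurd rfl hne
  | cons x l =>
    rw [List.sum_cons]
    have := hl x (List.mem_cons_self)
    omega

theorem Len.list {s : ℕ} (j : ℕ) (l : List ℕ) (hl : ∀ x ∈ l, 1 ≤ x ∧ Len s x) (hne : l ≠ [])
    (hj : l.length ≤ 2 ^ j) : Len (2 ^ j * (s + 1) - 1) l.sum := by
  induction j generalizing l with
  | zero =>
    cases l with
    | nil => exact absurd rfl hne
    | cons x l =>
      cases l with
      | nil =>
        have := (hl x List.mem_cons_self).2
        simpa using this
      | cons y l =>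
        simp at hj
  | succ j ih =>
    have h1 : 1 ≤ 2 ^ j := Nat.one_le_two_pow
    have h3 : 1 ≤ 2 ^ j * (s + 1) := Nat.mul_pos h1 (Nat.succ_pos s)
    have h4 : 2 ^ (j + 1) * (s + 1) = 2 * (2 ^ j * (s + 1)) := by ring
    by_cases h2 : l.length ≤ 2 ^ j
    · exact (ih l hl hne h2).mono (by omega)
    · have h5 : (l.take (2 ^ j)) ≠ [] := by
        intro h
        have := congrArg List.length h
        rw [List.length_take, List.length_nil] at this
        omega
      have h6 : (l.drop (2 ^ j)) ≠ [] := by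
        intro h
        have := congrArg List.length h
        rw [List.length_drop, List.length_nil] at this
        omega
      have h7 : ∀ x ∈ l.take (2 ^ j), 1 ≤ x ∧ Len s x := fun x hx => hl x (List.mem_of_mem_take hx)
      have h8 : ∀ x ∈ l.drop (2 ^ j), 1 ≤ x ∧ Len s x := fun x hx => hl x (List.mem_of_mem_drop hx)
      have h9 := ih (l.take (2 ^ j)) h7 h5 (by rw [List.length_take]; omega)
      have h10 := ih (l.drop (2 ^ j)) h8 h6 (by
        rw [List.length_drop]
        rw [pow_succ] at hj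
        omega)
      have h11 := h9.add h10 (Seq_sum_pos _ (fun x hx => (h7 x hx).1) h5)
        (Seq_sum_pos _ (fun x hx => (h8 x hx).1) h6)
      rw [List.sum_take_add_sum_drop] at h11
      have h12 : 2 * (2 ^ j * (s + 1) - 1) + 1 = 2 ^ (j + 1) * (s + 1) - 1 := by omega
      rw [h12] at h11
      exact h11

theorem Len.piece {s : ℕ} (hs : 1 ≤ s) (f : List ℕ) (hf : ∀ x ∈ f, 1 ≤ x ∧ Len s x) (e : ℕ)
    (he : s * f.length ≤ e) : Len s (2 ^ e * f.prod) := by
  induction f generalizing e with
  | nil =>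
    rw [List.prod_nil]
    exact Len.double_pow hs (Len.one.mono (Nat.zero_le s)) e
  | cons x f ih =>
    rw [List.length_cons, Nat.mul_succ] at he
    have h1 := ih (fun y hy => hf y (List.mem_cons_of_mem x hy)) (e - s) (by omega)
    obtain ⟨h2, h3⟩ := hf x List.mem_cons_self
    have h4 := h1.mul h3 h2
    have h5 : x * (2 ^ s * (2 ^ (e - s) * f.prod)) = 2 ^ e * (x :: f).prod := by
      rw [List.prod_cons]
      have h6 : 2 ^ e = 2 ^ s * 2 ^ (e - s) := by
        rw [← pow_add]
        congr 1
        omega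
      rw [h6]
      ring
    rw [h5] at h4
    exact h4

private theorem Seq_binary (B : ℕ) : ∀ n < 2 ^ B, ∃ l : List ℕ, l.length ≤ B ∧ l.sum = n ∧
    ∀ x ∈ l, ∃ e, x = 2 ^ e := by
  induction B with
  | zero =>
    intro n hn
    refine ⟨[], le_rfl, ?_, ?_⟩
    · rw [List.sum_nil]
      rw [pow_zero] at hn
      omega
    · intro x hx
      exact absurd hx (List.not_mem_nil)
  | succ B ih =>
    intro n hn
    by_cases h : n < 2 ^ B
    · obtain ⟨l, h1, h2, h3⟩ := ih n h
      exact ⟨l, by omega, h2, h3⟩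
    · obtain ⟨l, h1, h2, h3⟩ := ih (n - 2 ^ B) (by rw [pow_succ] at hn; omega)
      refine ⟨2 ^ B :: l, ?_, ?_, ?_⟩
      · rw [List.length_cons]
        omega
      · rw [List.sum_cons, h2]
        omega
      · intro x hx
        rcases List.mem_cons.1 hx with rfl | hx
        · exact ⟨B, rfl⟩
        · exact h3 x hx

theorem Len.small {B n : ℕ} (hn : 1 ≤ n) (hB : n < 2 ^ B) : Len (4 * B - 1) n := by
  obtain ⟨l, h1, h2, h3⟩ := Seq_binary B n hB
  have hne : l ≠ [] := by
    rintro rfl
    rw [List.sum_nil] at h2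
    omega
  have hB1 : 1 ≤ B := by
    rcases Nat.eq_zero_or_pos B with h | h
    · subst h
      rw [pow_zero] at hB
      omega
    · exact h
  have hl : ∀ x ∈ l, 1 ≤ x ∧ Len 1 x := by
    intro x hx
    obtain ⟨e, rfl⟩ := h3 x hx
    refine ⟨Nat.one_le_two_pow, ?_⟩
    have := Len.double_pow le_rfl (Len.one.mono (Nat.zero_le 1)) e
    rwa [mul_one] at this
  have hj : l.length ≤ 2 ^ (Nat.clog 2 B) := h1.trans (Nat.le_pow_clog (by norm_num) B)
  have h4 := Len.list (Nat.clog 2 B) l hl hne hj
  rw [h2] at h4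
  refine h4.mono ?_
  have h5 : 2 ^ (Nat.clog 2 B) < 2 * B := by
    rcases Nat.lt_or_ge B 2 with h | h
    · have : B = 1 := by omega
      subst this
      simp
    · have h6 := Nat.pow_pred_clog_lt_self (b := 2) (by norm_num) (x := B) (by omega)
      have h7 : 0 < Nat.clog 2 B := Nat.clog_pos (by norm_num) h
      have h8 : 2 ^ (Nat.clog 2 B) = 2 * 2 ^ (Nat.clog 2 B).pred := by
        conv_lhs => rw [← Nat.succ_pred_eq_of_pos h7]
        rw [pow_succ]
        ring
      omega
  omega

end H10.HD
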