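import Mathlib
import Pool.Agent.H10.HD.Res
import Pool.Agent.H10.HD.Seq

/-!
MODULE Asm.  Theorem C: every `n < 2^L` is a sum of `O(log L)` elements of `S_s`.
-/

namespace H10.HD

open Finset

/-- `n` is a sum of at most `k` positive numbers in `S_s`. -/
def Rep (s k n : ℕ) : Prop :=
  ∃ l : List ℕ, l.length ≤ k ∧ (∀ x ∈ l, 1 ≤ x ∧ Len s x) ∧ l.sum = n

theorem Rep.zero (s k : ℕ) : Rep s k 0 := ⟨[], Nat.zero_le _, by simp, rfl⟩

theorem Rep.of_len {s n : ℕ} (hn : 1 ≤ n) (h : Len s n) : Rep s 1 n :=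
  ⟨[n], by simp, by simp [hn, h], by simp⟩

theorem Rep.add {s k k' n n' : ℕ} (h : Rep s k n) (h' : Rep s k' n') :
    Rep s (k + k') (n + n') := by
  obtain ⟨l, hl, hx, rfl⟩ := h
  obtain ⟨l', hl', hx', rfl⟩ := h'
  refine ⟨l ++ l', ?_, ?_, List.sum_append⟩
  · rw [List.length_append]
    omega
  · intro x hx1
    rcases List.mem_append.mp hx1 with h1 | h1
    · exact hx x h1
    · exact hx' x h1

theorem Rep.mono {s k k' n : ℕ} (h : Rep s k n) (hk : k ≤ k') : Rep s k' n := by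
  obtain ⟨l, hl, hx, hs⟩ := h
  exact ⟨l, hl.trans hk, hx, hs⟩

theorem Rep.sum4 {s : ℕ} (F : Fin 4 → ℕ) (h : ∀ i, Rep s 1 (F i)) : Rep s 4 (∑ i, F i) := by
  rw [Fin.sum_univ_four]
  exact (((h 0).add (h 1)).add (h 2)).add (h 3)

theorem round_step {L v s : ℕ} (hv : 2 ≤ v) (hL : 8 * v * (L + 1) ≤ 2 ^ v) (hs1 : 1 ≤ s)
    (hs : s ≤ 248 * v) (hsmall : ∀ n, 1 ≤ n → n < 2 ^ (56 * v + 6) → Len s n)
    {σ e R : ℕ} (hσ : 1 ≤ σ) (hσL : σ ≤ L) (he : 64 * σ ≤ e)
    (hR : 2 ^ (2 * σ + 56 * v + 3) ≤ R) :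
    ∃ R', 1 ≤ R' ∧ 2 ^ σ * R' ≤ R ∧
      ∀ k, Rep s k (2 ^ (e + σ) * R') → Rep s (k + 5) (2 ^ e * R) := by
  have hcard : σ * 2 ^ (7 * v) ≤ (oddPrimes v).card :=
    (Nat.mul_le_mul_right _ hσL).trans (oddPrimes_card v L (by omega) hL)
  have hP : ∀ p ∈ oddPrimes v, p.Prime ∧ p ≠ 2 ∧ p < 2 ^ (8 * v) := by
    intro p hp
    unfold oddPrimes at hp
    rw [Finset.mem_filter, Finset.mem_range] at hp
    exact ⟨hp.2.1, hp.2.2, hp.1⟩
  have hres := residue v σ (oddPrimes v) (by omega) hP hσ hcard R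
  obtain ⟨K, hK⟩ : ∃ K, 2 * (σ / (8 * v)) = K := ⟨_, rfl⟩
  rw [hK] at hres
  obtain ⟨n, f, hn, hf, hmod⟩ := hres
  have hKσ : 8 * v * K ≤ 2 * σ := by
    have := Nat.mul_div_le σ (8 * v)
    calc 8 * v * K = 2 * (8 * v * (σ / (8 * v))) := by rw [← hK]; ring
      _ ≤ 2 * σ := by omega
  -- the size of the products
  have hprod : ∀ i, ∏ j, f i j ≤ 2 ^ (2 * σ) := by
    intro i
    calc ∏ j, f i j ≤ ∏ _j : Fin K, 2 ^ (8 * v) :=
          Finset.prod_le_prod' (fun j _ => (hP _ (hf i j)).2.2.le)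
      _ = 2 ^ (8 * v * K) := by
          rw [Finset.prod_const, Finset.card_univ, Fintype.card_fin, ← pow_mul]
      _ ≤ 2 ^ (2 * σ) := Nat.pow_le_pow_right (by norm_num) hKσ
  have hpos : ∀ i, 1 ≤ ∏ j, f i j := by
    intro i
    exact Nat.one_le_iff_ne_zero.mpr
      (Finset.prod_ne_zero_iff.mpr (fun j _ => (hP _ (hf i j)).1.ne_zero))
  have hsumlt : n + ∑ i, ∏ j, f i j < R := by
    have h1 : ∑ i, ∏ j, f i j ≤ 4 * 2 ^ (2 * σ) := by
      calc ∑ i, ∏ j, f i j ≤ ∑ _i : Fin 4, 2 ^ (2 * σ) := Finset.sum_le_sum (fun i _ => hprod i)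
        _ = 4 * 2 ^ (2 * σ) := by simp
    have h2 : 2 ^ (2 * σ + 56 * v + 3) = 2 ^ (2 * σ) * 2 ^ (56 * v) * 8 := by
      rw [pow_add, pow_add]
      norm_num
    have h3 : 1 ≤ 2 ^ (2 * σ) := Nat.one_le_two_pow
    have h4 : 1 ≤ 2 ^ (56 * v) := Nat.one_le_two_pow
    have h5 : 2 ^ (56 * v) ≤ 2 ^ (2 * σ) * 2 ^ (56 * v) := Nat.le_mul_of_pos_left _ h3
    have h6 : 2 ^ (2 * σ) ≤ 2 ^ (2 * σ) * 2 ^ (56 * v) := Nat.le_mul_of_pos_right _ h4
    have h7 : 8 * (2 ^ (2 * σ) * 2 ^ (56 * v)) ≤ R := by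
      rw [h2] at hR
      linarith
    omega
  have hdvd : 2 ^ σ ∣ R - (n + ∑ i, ∏ j, f i j) := (Nat.modEq_iff_dvd' hsumlt.le).mp hmod
  obtain ⟨R', hR'⟩ := hdvd
  have hReq : R = n + ∑ i, ∏ j, f i j + 2 ^ σ * R' := by omega
  refine ⟨R', ?_, by omega, ?_⟩
  · rcases Nat.eq_zero_or_pos R' with h0 | h0
    · rw [h0, Nat.mul_zero] at hR'
      omega
    · exact h0
  · intro k hk
    have hn1 : Rep s 1 (2 ^ e * n) := by
      rcases Nat.eq_zero_or_pos n with h0 | h0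
      · rw [h0, Nat.mul_zero]
        exact Rep.zero s 1
      · apply Rep.of_len
        · exact Nat.mul_pos (by positivity) h0
        · apply Len.double_pow hs1
          exact hsmall n h0 (hn.trans_le (Nat.pow_le_pow_right (by norm_num) (by omega)))
    have hp4 : Rep s 4 (∑ i, 2 ^ e * ∏ j, f i j) := by
      apply Rep.sum4
      intro i
      apply Rep.of_len
      · exact Nat.mul_pos (by positivity) (hpos i)
      · have h1 := Len.piece hs1 (List.ofFn (f i)) ?_ e ?_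
        · rw [List.prod_ofFn] at h1
          exact h1
        · intro x hx
          rw [List.mem_ofFn] at hx
          obtain ⟨j, rfl⟩ := hx
          have h2 := hP _ (hf i j)
          exact ⟨h2.1.one_lt.le, hsmall _ h2.1.one_lt.le
            (h2.2.2.trans_le (Nat.pow_le_pow_right (by norm_num) (by omega)))⟩
        · rw [List.length_ofFn]
          calc s * K ≤ 248 * v * K := Nat.mul_le_mul_right _ hs
            _ = 31 * (8 * v * K) := by ring
            _ ≤ 31 * (2 * σ) := Nat.mul_le_mul_left _ hKσ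
            _ ≤ e := by omega
    have htot : 2 ^ e * R = 2 ^ (e + σ) * R' + (2 ^ e * n + ∑ i, 2 ^ e * ∏ j, f i j) := by
      rw [hReq, ← Finset.mul_sum, pow_add]
      ring
    rw [htot]
    have h9 := hk.add (hn1.add hp4)
    exact h9.mono (by omega)

theorem phase2 {L v s : ℕ} (hv : 2 ≤ v) (hL : 8 * v * (L + 1) ≤ 2 ^ v) (hs1 : 1 ≤ s)
    (hs : s ≤ 248 * v) (hsmall : ∀ n, 1 ≤ n → n < 2 ^ (56 * v + 6) → Len s n) (i : ℕ)
    (hi : 2 ^ i ≤ L) : ∀ e R, 64 * 2 ^ i ≤ e → 1 ≤ R → R < 2 ^ (2 ^ (i + 1) + 56 * v + 4) →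
      Rep s (10 * i + 1) (2 ^ e * R) := by
  induction i with
  | zero =>
    intro e R he hR1 hR
    apply Rep.of_len
    · exact Nat.mul_pos (by positivity) hR1
    · apply Len.double_pow hs1
      apply hsmall R hR1
      refine hR.trans_le (Nat.pow_le_pow_right (by norm_num) ?_)
      norm_num
      omega
  | succ i ih =>
    have hpi : 2 ^ (i + 1) = 2 * 2 ^ i := by rw [pow_succ]; ring
    have hi' : 2 ^ i ≤ L := by omega
    have IH := ih hi'
    have h2i : 2 ^ (i + 1 + 1) = 4 * 2 ^ i := by rw [pow_succ, pow_succ]; ring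
    have hσ1 : 1 ≤ 2 ^ i := Nat.one_le_two_pow
    -- an auxiliary statement: one more round
    have aux : ∀ e R k, 64 * 2 ^ i ≤ e → 1 ≤ R →
        (∀ e' R', 64 * 2 ^ i ≤ e' → 1 ≤ R' → 2 ^ (2 ^ i) * R' ≤ R → Rep s k (2 ^ e' * R')) →
        10 * i + 1 ≤ k + 5 → Rep s (k + 5) (2 ^ e * R) := by
      intro e R k he hR1 hk hk5
      rcases Nat.lt_or_ge R (2 ^ (2 ^ (i + 1) + 56 * v + 4)) with h | h
      · exact (IH e R he hR1 h).mono hk5
      · obtain ⟨R', hR'1, hR'2, hR'3⟩ := round_step hv hL hs1 hs hsmall hσ1 hi' he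
          (le_trans (Nat.pow_le_pow_right (by norm_num) (by omega)) h)
        exact hR'3 k (hk _ R' (by omega) hR'1 hR'2)
    intro e R he hR1 hR
    have h1 := aux e R (10 * i + 6) (by omega) hR1 ?_ (by omega)
    · exact h1.mono (by omega)
    · intro e' R' he' hR'1 hR'2
      have h2 := aux e' R' (10 * i + 1) he' hR'1 ?_ (by omega)
      · exact h2.mono (by omega)
      · intro e'' R'' he'' hR''1 hR''2
        apply IH e'' R'' he'' hR''1
        have h3 : 2 ^ (2 ^ i) * (2 ^ (2 ^ i) * R'') < 2 ^ (2 ^ (i + 1 + 1) + 56 * v + 4) :=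
          lt_of_le_of_lt ((Nat.mul_le_mul_left _ hR''2).trans hR'2) hR
        have h4 : 2 ^ (2 ^ (i + 1 + 1) + 56 * v + 4) =
            2 ^ (2 ^ i) * (2 ^ (2 ^ i) * 2 ^ (2 ^ (i + 1) + 56 * v + 4)) := by
          rw [← pow_add, ← pow_add]
          congr 1
          omega
        rw [h4] at h3
        exact Nat.lt_of_mul_lt_mul_left (Nat.lt_of_mul_lt_mul_left h3)

theorem phase1 {L v s : ℕ} (hv : 2 ≤ v) (hL : 8 * v * (L + 1) ≤ 2 ^ v) (hs1 : 1 ≤ s)
    (hs : s ≤ 248 * v) (hsmall : ∀ n, 1 ≤ n → n < 2 ^ (56 * v + 6) → Len s n) {I : ℕ}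
    (hI : L ≤ 64 * 2 ^ I) (hIL : 2 ^ I ≤ L) (d : ℕ) :
    ∀ i, i + d = I → ∀ e R, 64 * 2 ^ i ≤ e → 1 ≤ R → 2 ^ e * R < 2 ^ L →
      Rep s (320 * d + 10 * I + 1) (2 ^ e * R) := by
  induction d with
  | zero =>
    intro i hi e R he hR1 hlt
    exfalso
    have h1 : 2 ^ L ≤ 2 ^ e * R := by
      calc 2 ^ L ≤ 2 ^ e := Nat.pow_le_pow_right (by norm_num) (by
              have : i = I := by omega
              subst this
              omega)
        _ ≤ 2 ^ e * R := Nat.le_mul_of_pos_right _ hR1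
    omega
  | succ d ih =>
    intro i hi
    have hpi : 2 ^ (i + 1) = 2 * 2 ^ i := by rw [pow_succ]; ring
    have hσ1 : 1 ≤ 2 ^ i := Nat.one_le_two_pow
    have hiL : 2 ^ i ≤ L := (Nat.pow_le_pow_right (by norm_num) (by omega)).trans hIL
    have IH := ih (i + 1) (by omega)
    have inner : ∀ j, ∀ e R, 64 * 2 ^ i ≤ e → 128 * 2 ^ i ≤ e + j * 2 ^ i → 1 ≤ R →
        2 ^ e * R < 2 ^ L → Rep s (5 * j + 320 * d + 10 * I + 1) (2 ^ e * R) := by
      intro j
      induction j with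
      | zero =>
        intro e R _ he2 hR1 hlt
        exact (IH e R (by omega) hR1 hlt).mono (by omega)
      | succ j ihj =>
        intro e R he he2 hR1 hlt
        rcases Nat.lt_or_ge R (2 ^ (2 ^ (i + 1) + 56 * v + 4)) with h | h
        · exact (phase2 hv hL hs1 hs hsmall i hiL e R he hR1 h).mono (by omega)
        · obtain ⟨R', hR'1, hR'2, hR'3⟩ := round_step hv hL hs1 hs hsmall hσ1 hiL he
            (le_trans (Nat.pow_le_pow_right (by norm_num) (by omega)) h)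
          have h1 := hR'3 _ (ihj (e + 2 ^ i) R' (by omega) (by
            rw [Nat.add_mul] at he2
            omega) hR'1 ?_)
          · exact h1.mono (by omega)
          · refine lt_of_le_of_lt ?_ hlt
            rw [pow_add, Nat.mul_assoc]
            exact Nat.mul_le_mul_left _ hR'2
    intro e R he hR1 hlt
    exact (inner 64 e R he (by omega) hR1 hlt).mono (by omega)

theorem assemble (L v s : ℕ) (hv : 2 ≤ v) (hL : 8 * v * (L + 1) ≤ 2 ^ v) (hs1 : 1 ≤ s)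
    (hs : s ≤ 248 * v) (hsmall : ∀ n, 1 ≤ n → n < 2 ^ (56 * v + 6) → Len s n) (n : ℕ)
    (hn : 1 ≤ n) (hnL : n < 2 ^ L) :
    ∃ l : List ℕ, l ≠ [] ∧ l.length ≤ 330 * (Nat.log 2 L + 3) ∧ (∀ x ∈ l, 1 ≤ x ∧ Len s x) ∧
      l.sum = n := by
  have hL0 : L ≠ 0 := by
    rintro rfl
    simp at hnL
    omega
  set I := Nat.log 2 L with hIdef
  have hI1 : 2 ^ I ≤ L := Nat.pow_log_le_self 2 hL0
  have hI2 : L < 2 ^ (I + 1) := Nat.lt_pow_succ_log_self (by norm_num) L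
  have hI3 : L ≤ 64 * 2 ^ I := by
    rw [pow_succ] at hI2
    omega
  have hrep : Rep s (1 + (320 * I + 10 * I + 1)) (n % 2 ^ 64 + 2 ^ 64 * (n / 2 ^ 64)) := by
    apply Rep.add
    · rcases Nat.eq_zero_or_pos (n % 2 ^ 64) with h0 | h0
      · rw [h0]
        exact Rep.zero s 1
      · apply Rep.of_len h0
        apply hsmall _ h0
        refine lt_of_lt_of_le (Nat.mod_lt _ (by positivity)) ?_
        exact Nat.pow_le_pow_right (by norm_num) (by omega)
    · rcases Nat.eq_zero_or_pos (n / 2 ^ 64) with h0 | h0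
      · rw [h0, Nat.mul_zero]
        exact Rep.zero s _
      · refine phase1 hv hL hs1 hs hsmall hI3 hI1 I 0 (by omega) 64 (n / 2 ^ 64) (by norm_num) h0 ?_
        exact lt_of_le_of_lt (Nat.mul_div_le n (2 ^ 64)) hnL
  rw [Nat.mod_add_div] at hrep
  obtain ⟨l, hl1, hl2, hl3⟩ := hrep
  refine ⟨l, ?_, hl1.trans (by omega), hl2, hl3⟩
  rintro rfl
  simp at hl3
  omega

end H10.HD
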