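import Mathlib
import Pool.Agent.H12.Defs

/-!
MODULE DesA (about 130 lines).  A Hadamard matrix of order `4 m` gives a symmetric
`(4m-1, 2m-1, m-1)`-design.

Normalise: multiply the rows and columns by signs so that the first row and the first column are
`1` (`H' i j = H i j * H i 0 * H 0 j * H 0 0`); still `H' H'ᵀ = 4m`, hence also `H'ᵀ H' = 4m` (a one-sided inverse of a square
matrix over `ℚ` is two-sided).  Points `x` and blocks `j` are the indices `1, ..., 4m-1`; `B j = {x : H' x j = 1}`.  Each row and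
each column of the core has sum `-1`, so `2m-1` entries `1`; for two different rows `x, y` of the core the inner product
over all columns is `0`; with `p` = number of common `1`'s among the columns `1..4m-1` one gets `p = m - 1`
(`(1 + H'xj)(1 + H'yj)` summed over all `4m` columns is `4m`, it is `4 (p + 1)`).
-/

namespace H10.HD

open Finset Matrix

private theorem DesA_card {n : ℕ} (P : Fin (n + 1) → Prop) [DecidablePred P] (h : P 0) :
    (univ.filter P).card = (univ.filter fun j : Fin n => P j.succ).card + 1 := by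
  rw [Finset.card_filter, Finset.card_filter, Fin.sum_univ_succ, if_pos h, add_comm]

private theorem DesA_one {n : ℕ} {f : Fin (n + 1) → ℤ} (hf : ∀ i, f i = 1 ∨ f i = -1)
    (h : ∑ i, f i = 0) : 2 * (((univ.filter fun i => f i = 1).card : ℕ) : ℤ) = n + 1 := by
  have h1 : ∀ i, f i = 2 * (if f i = 1 then 1 else 0) - 1 := by
    intro i
    rcases hf i with h | h <;> rw [h] <;> norm_num
  have h2 : ∑ i, f i = 2 * (((univ.filter fun i => f i = 1).card : ℕ) : ℤ) - (n + 1) := by
    rw [Finset.card_filter]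
    push_cast
    rw [Finset.mul_sum]
    have h3 : ((n : ℤ) + 1) = ∑ _i : Fin (n + 1), (1 : ℤ) := by simp
    rw [h3, ← Finset.sum_sub_distrib]
    exact Finset.sum_congr rfl fun i _ => h1 i
  omega

private theorem DesA_two {n : ℕ} {f g : Fin (n + 1) → ℤ} (hf : ∀ i, f i = 1 ∨ f i = -1)
    (hg : ∀ i, g i = 1 ∨ g i = -1) (h : ∑ i, f i = 0) (h' : ∑ i, g i = 0)
    (h'' : ∑ i, f i * g i = 0) :
    4 * (((univ.filter fun i => f i = 1 ∧ g i = 1).card : ℕ) : ℤ) = n + 1 := by
  have h1 : ∀ i, (4 : ℤ) * (if f i = 1 ∧ g i = 1 then 1 else 0) = 1 + f i + g i + f i * g i := by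
    intro i
    rcases hf i with h | h <;> rcases hg i with h' | h' <;> rw [h, h'] <;> norm_num
  rw [Finset.card_filter]
  push_cast
  rw [Finset.mul_sum, Finset.sum_congr rfl fun i _ => h1 i, Finset.sum_add_distrib,
    Finset.sum_add_distrib, Finset.sum_add_distrib, h, h', h'']
  simp

private theorem DesA_core (n m : ℕ) (hn : n + 1 = 4 * m) (hm : 1 ≤ m)
    (H : Matrix (Fin (n + 1)) (Fin (n + 1)) ℤ) (hpm : ∀ i j, H i j = 1 ∨ H i j = -1)
    (hH : H * Hᵀ = ((n + 1 : ℕ) : ℤ) • (1 : Matrix (Fin (n + 1)) (Fin (n + 1)) ℤ)) :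
    Pool.Agent.H12.SymmetricDesignExists n (2 * m - 1) (m - 1) := by
  classical
  have hsq : ∀ i j, H i j * H i j = 1 := by
    intro i j
    rcases hpm i j with h | h <;> rw [h] <;> norm_num
  -- the transposed identity
  have hHe : ∀ i j, (H * Hᵀ) i j = if i = j then ((n : ℤ) + 1) else 0 := by
    intro i j
    rw [hH, Matrix.smul_apply, Matrix.one_apply]
    split_ifs <;> simp
  have hH' : ∀ i j, (Hᵀ * H) i j = if i = j then ((n : ℤ) + 1) else 0 := by
    let φ : ℤ →+* ℚ := Int.castRingHom ℚ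
    have hc : ((n : ℚ) + 1) ≠ 0 := by positivity
    have h1 : (H.map φ) * (((n : ℚ) + 1)⁻¹ • (H.map φ)ᵀ) = 1 := by
      ext i j
      rw [Matrix.mul_smul, ← Matrix.transpose_map, ← Matrix.map_mul, Matrix.smul_apply,
        Matrix.map_apply, hHe, Matrix.one_apply]
      split_ifs
      · have : φ ((n : ℤ) + 1) = (n : ℚ) + 1 := by simp [φ]
        rw [this, smul_eq_mul, inv_mul_cancel₀ hc]
      · simp
    have h3 := mul_eq_one_comm.1 h1
    intro i j
    have h5 := congrFun (congrFun h3 i) j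
    rw [Matrix.smul_mul, ← Matrix.transpose_map, ← Matrix.map_mul, Matrix.smul_apply,
      Matrix.map_apply, Matrix.one_apply, smul_eq_mul] at h5
    have h6 : φ ((Hᵀ * H) i j) = ((n : ℚ) + 1) * if i = j then 1 else 0 := by
      rw [← h5, ← mul_assoc, mul_inv_cancel₀ hc, one_mul]
    have h7 : (((Hᵀ * H) i j : ℤ) : ℚ) = ((if i = j then ((n : ℤ) + 1) else 0 : ℤ) : ℚ) := by
      have h8 : φ ((Hᵀ * H) i j) = (((Hᵀ * H) i j : ℤ) : ℚ) := rfl
      rw [← h8, h6]
      split_ifs <;> simp
    exact_mod_cast h7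
  have hrow : ∀ i k, i ≠ k → ∑ j, H i j * H k j = 0 := by
    intro i k hik
    have h1 := hHe i k
    rw [Matrix.mul_apply, if_neg hik] at h1
    exact h1
  have hcol : ∀ j k, j ≠ k → ∑ i, H i j * H i k = 0 := by
    intro j k hjk
    have h1 := hH' j k
    rw [Matrix.mul_apply, if_neg hjk] at h1
    exact h1
  -- the normalised matrix
  let N : Fin (n + 1) → Fin (n + 1) → ℤ := fun i j => H i j * H i 0 * H 0 j * H 0 0
  have hN : ∀ i j, N i j = 1 ∨ N i j = -1 := by
    intro i j
    simp only [N]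
    rcases hpm i j with h1 | h1 <;> rcases hpm i 0 with h2 | h2 <;> rcases hpm 0 j with h3 | h3 <;>
      rcases hpm 0 0 with h4 | h4 <;> rw [h1, h2, h3, h4] <;> norm_num
  have hN0 : ∀ j, N 0 j = 1 := by
    intro j
    have h1 := hsq 0 j
    have h2 := hsq 0 0
    simp only [N]
    calc H 0 j * H 0 0 * H 0 j * H 0 0 = (H 0 j * H 0 j) * (H 0 0 * H 0 0) := by ring
      _ = 1 := by rw [h1, h2, one_mul]
  have hN0' : ∀ i, N i 0 = 1 := by
    intro j
    have h1 := hsq j 0
    have h2 := hsq 0 0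
    simp only [N]
    calc H j 0 * H j 0 * H 0 0 * H 0 0 = (H j 0 * H j 0) * (H 0 0 * H 0 0) := by ring
      _ = 1 := by rw [h1, h2, one_mul]
  have hNr : ∀ i k, i ≠ k → ∑ j, N i j * N k j = 0 := by
    intro i k hik
    have h1 : ∀ j, N i j * N k j = (H i 0 * H k 0) * (H i j * H k j) := by
      intro j
      have h1 := hsq 0 j
      have h2 := hsq 0 0
      simp only [N]
      calc H i j * H i 0 * H 0 j * H 0 0 * (H k j * H k 0 * H 0 j * H 0 0)
          = (H i 0 * H k 0) * (H i j * H k j) * (H 0 j * H 0 j) * (H 0 0 * H 0 0) := by ring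
        _ = _ := by rw [h1, h2, mul_one, mul_one]
    rw [Finset.sum_congr rfl fun j _ => h1 j, ← Finset.mul_sum, hrow i k hik, mul_zero]
  have hNc : ∀ j k, j ≠ k → ∑ i, N i j * N i k = 0 := by
    intro j k hjk
    have h1 : ∀ i, N i j * N i k = (H 0 j * H 0 k) * (H i j * H i k) := by
      intro i
      have h1 := hsq i 0
      have h2 := hsq 0 0
      simp only [N]
      calc H i j * H i 0 * H 0 j * H 0 0 * (H i k * H i 0 * H 0 k * H 0 0)
          = (H 0 j * H 0 k) * (H i j * H i k) * (H i 0 * H i 0) * (H 0 0 * H 0 0) := by ring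
        _ = _ := by rw [h1, h2, mul_one, mul_one]
    rw [Finset.sum_congr rfl fun i _ => h1 i, ← Finset.mul_sum, hcol j k hjk, mul_zero]
  have hrs : ∀ i, i ≠ 0 → ∑ j, N i j = 0 := by
    intro i hi
    have h1 := hNr i 0 hi
    simpa [hN0] using h1
  have hcs : ∀ j, j ≠ 0 → ∑ i, N i j = 0 := by
    intro j hj
    have h1 := hNc j 0 hj
    simpa [hN0'] using h1
  refine ⟨by omega, 2 * m - 1, fun j => univ.filter fun x => N x.succ j.succ = 1, ?_, ?_, ?_⟩
  · intro j
    have h1 := DesA_one (fun i => hN i j.succ) (hcs j.succ (Fin.succ_ne_zero j))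
    have h2 := DesA_card (fun i => N i j.succ = 1) (hN0 j.succ)
    rw [h2] at h1
    push_cast at h1
    change (univ.filter fun x : Fin n => N x.succ j.succ = 1).card = 2 * m - 1
    omega
  · intro x
    have h1 := DesA_one (fun j => hN x.succ j) (hrs x.succ (Fin.succ_ne_zero x))
    have h2 := DesA_card (fun j => N x.succ j = 1) (hN0' x.succ)
    rw [h2] at h1
    push_cast at h1
    have h3 : (univ.filter fun j : Fin n => x ∈ univ.filter fun y : Fin n => N y.succ j.succ = 1) =
        univ.filter fun j : Fin n => N x.succ j.succ = 1 := by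
      ext j
      simp
    rw [h3]
    omega
  · intro x y hxy
    have hxy' : x.succ ≠ y.succ := fun h => hxy (Fin.succ_injective n h)
    have h1 := DesA_two (fun j => hN x.succ j) (fun j => hN y.succ j)
      (hrs x.succ (Fin.succ_ne_zero x)) (hrs y.succ (Fin.succ_ne_zero y))
      (hNr x.succ y.succ hxy')
    have h2 := DesA_card (fun j => N x.succ j = 1 ∧ N y.succ j = 1) ⟨hN0' x.succ, hN0' y.succ⟩
    rw [h2] at h1
    push_cast at h1
    have h3 : (univ.filter fun j : Fin n => (x ∈ univ.filter fun y : Fin n => N y.succ j.succ = 1) ∧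
        y ∈ univ.filter fun y : Fin n => N y.succ j.succ = 1) =
        univ.filter fun j : Fin n => N x.succ j.succ = 1 ∧ N y.succ j.succ = 1 := by
      ext j
      simp
    rw [h3]
    omega

theorem design_of_hadamard (m : ℕ) (hm : 1 ≤ m) (H : Matrix (Fin (4 * m)) (Fin (4 * m)) ℤ)
    (hpm : ∀ i j, H i j = 1 ∨ H i j = -1)
    (hH : H * Hᵀ = ((4 * m : ℕ) : ℤ) • (1 : Matrix (Fin (4 * m)) (Fin (4 * m)) ℤ)) :
    Pool.Agent.H12.SymmetricDesignExists (4 * m - 1) (2 * m - 1) (m - 1) := by
  obtain ⟨n, hn⟩ : ∃ n, 4 * m = n + 1 := ⟨4 * m - 1, by omega⟩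
  have key : ∀ N : ℕ, N = 4 * m → ∀ H : Matrix (Fin N) (Fin N) ℤ,
      (∀ i j, H i j = 1 ∨ H i j = -1) →
      H * Hᵀ = ((N : ℕ) : ℤ) • (1 : Matrix (Fin N) (Fin N) ℤ) →
      Pool.Agent.H12.SymmetricDesignExists (N - 1) (2 * m - 1) (m - 1) := by
    intro N hN H h1 h2
    obtain rfl : N = n + 1 := by omega
    exact DesA_core n m (by omega) hm H h1 h2
  exact key (4 * m) rfl H hpm hH

end H10.HD
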