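import Mathlib
import Pool.Agent.H12.Defs

/-!
MODULE DesB (about 130 lines).  A Hadamard matrix of order `2 u` gives a symmetric
`(4u^2, 2u^2 - u, u^2 - u)`-design (Menon design).

Let `n = 2u`, normalise the matrix so that the first row is `1`: `h k j = H k j * H 0 j`; then `∑_j h 0 j h k j = 0`, i.e. `∑_j h k j = 0` for
`k ≠ 0`, and `h hᵀ = hᵀ h = n`.  On the index set `Fin n × Fin n` put `M (i,a) (j,b) = h (i+j) a * h (i+j) b` (addition in `Fin n`,
`n ≥ 1`).  `M` is symmetric with entries `±1`.  `∑_{(j,b)} M (i,a) (j,b) M (i',a') (j,b) = ∑_j h (i+j) a h (i'+j) a' ∑_b h (i+j) b h (i'+j) b =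
[i = i'] n ∑_j h (i+j) a h (i+j) a' = [i = i'] n n [a = a']`.  Row sums: `∑_{(j,b)} M (i,a) (j,b) = ∑_j h (i+j) a (∑_b h (i+j) b) =
h 0 a n = n`.  Blocks: `B j = {x : M x j = -1}`: `k = (n^2 - n)/2 = 2u^2 - u`; for `x ≠ y`
`∑_z (1 - M x z)(1 - M y z) = n^2 - 2n = 4 l`, `l = u^2 - u`.  Reindex by `Fin n × Fin n ≃ Fin (4 u^2)`.
-/

namespace H10.HD

open Finset Matrix

private theorem DesB_reindex {P : Type} [Fintype P] [DecidableEq P] {v k l r : ℕ}
    (e : P ≃ Fin v) (hkv : k < v) (B : P → Finset P) (h1 : ∀ z, (B z).card = k)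
    (h2 : ∀ x, (univ.filter (fun z => x ∈ B z)).card = r)
    (h3 : ∀ x y, x ≠ y → (univ.filter (fun z => x ∈ B z ∧ y ∈ B z)).card = l) :
    Pool.Agent.H12.SymmetricDesignExists v k l := by
  refine ⟨hkv, r, fun j => (B (e.symm j)).map e.toEmbedding, ?_, ?_, ?_⟩
  · intro j
    rw [Finset.card_map, h1]
  · intro x
    rw [← h2 (e.symm x)]
    refine Finset.card_nbij' (fun j => e.symm j) (fun z => e z) ?_ ?_ ?_ ?_
    · intro j hj
      have hj' := (Finset.mem_filter.mp hj).2
      obtain ⟨y, hy, hyx⟩ := Finset.mem_map.mp hj'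
      refine Finset.mem_filter.mpr ⟨Finset.mem_univ _, ?_⟩
      have : e.symm x = y := by rw [← hyx]; simp
      rw [this]
      exact hy
    · intro z hz
      have hz' := (Finset.mem_filter.mp hz).2
      refine Finset.mem_filter.mpr ⟨Finset.mem_univ _, ?_⟩
      refine Finset.mem_map.mpr ⟨e.symm x, ?_, by simp⟩
      rw [Equiv.symm_apply_apply]
      exact hz'
    · intro j _
      simp
    · intro z _
      simp
  · intro x y hxy
    rw [← h3 (e.symm x) (e.symm y) (fun h => hxy (e.symm.injective h))]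
    refine Finset.card_nbij' (fun j => e.symm j) (fun z => e z) ?_ ?_ ?_ ?_
    · intro j hj
      have hj' := (Finset.mem_filter.mp hj).2
      obtain ⟨a, ha, hax⟩ := Finset.mem_map.mp hj'.1
      obtain ⟨b, hb, hby⟩ := Finset.mem_map.mp hj'.2
      refine Finset.mem_filter.mpr ⟨Finset.mem_univ _, ?_⟩
      have e1 : e.symm x = a := by rw [← hax]; simp
      have e2 : e.symm y = b := by rw [← hby]; simp
      rw [e1, e2]
      exact ⟨ha, hb⟩
    · intro z hz
      have hz' := (Finset.mem_filter.mp hz).2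
      refine Finset.mem_filter.mpr ⟨Finset.mem_univ _, ?_, ?_⟩
      · refine Finset.mem_map.mpr ⟨e.symm x, ?_, by simp⟩
        rw [Equiv.symm_apply_apply]
        exact hz'.1
      · refine Finset.mem_map.mpr ⟨e.symm y, ?_, by simp⟩
        rw [Equiv.symm_apply_apply]
        exact hz'.2
    · intro j _
      simp
    · intro z _
      simp

private theorem DesB_transpose {n : ℕ} [NeZero n] (h : Matrix (Fin n) (Fin n) ℤ)
    (hh : ∀ i j, ∑ b, h i b * h j b = if i = j then (n : ℤ) else 0) :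
    ∀ a b, ∑ k, h k a * h k b = if a = b then (n : ℤ) else 0 := by
  let φ : ℤ →+* ℚ := Int.castRingHom ℚ
  have hc : (n : ℚ) ≠ 0 := by
    have := NeZero.ne n
    exact_mod_cast this
  have hHe : ∀ i j, (h * hᵀ) i j = if i = j then (n : ℤ) else 0 := by
    intro i j
    rw [Matrix.mul_apply, ← hh i j]
    rfl
  have h1 : (h.map φ) * ((n : ℚ)⁻¹ • (h.map φ)ᵀ) = 1 := by
    ext i j
    rw [Matrix.mul_smul, ← Matrix.transpose_map, ← Matrix.map_mul, Matrix.smul_apply,
      Matrix.map_apply, hHe, Matrix.one_apply]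
    split_ifs
    · have : φ (n : ℤ) = (n : ℚ) := by simp [φ]
      rw [this, smul_eq_mul, inv_mul_cancel₀ hc]
    · simp
  have h3 := mul_eq_one_comm.1 h1
  intro a b
  have h5 := congrFun (congrFun h3 a) b
  rw [Matrix.smul_mul, ← Matrix.transpose_map, ← Matrix.map_mul, Matrix.smul_apply,
    Matrix.map_apply, Matrix.one_apply, smul_eq_mul] at h5
  have h6 : φ ((hᵀ * h) a b) = (n : ℚ) * if a = b then 1 else 0 := by
    rw [← h5, ← mul_assoc, mul_inv_cancel₀ hc, one_mul]
  have h7 : (hᵀ * h) a b = if a = b then (n : ℤ) else 0 := by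
    have h8 : (((hᵀ * h) a b : ℤ) : ℚ) = ((if a = b then (n : ℤ) else 0 : ℤ) : ℚ) := by
      have : φ ((hᵀ * h) a b) = (((hᵀ * h) a b : ℤ) : ℚ) := rfl
      rw [← this, h6]
      split_ifs <;> simp
    exact_mod_cast h8
  rw [← h7, Matrix.mul_apply]
  rfl

private theorem DesB_card_neg {P : Type} [Fintype P] (f : P → ℤ)
    (hf : ∀ z, f z = 1 ∨ f z = -1) {s : ℤ} (hs : ∑ z, f z = s) :
    2 * (((univ.filter fun z => f z = -1).card : ℕ) : ℤ) = Fintype.card P - s := by
  have h1 : ∀ z, (2 : ℤ) * (if f z = -1 then 1 else 0) = 1 - f z := by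
    intro z
    rcases hf z with h | h <;> rw [h] <;> norm_num
  rw [Finset.card_filter]
  push_cast
  rw [Finset.mul_sum, Finset.sum_congr rfl fun z _ => h1 z, Finset.sum_sub_distrib, hs]
  simp

private theorem DesB_card_neg2 {P : Type} [Fintype P] (f g : P → ℤ)
    (hf : ∀ z, f z = 1 ∨ f z = -1) (hg : ∀ z, g z = 1 ∨ g z = -1) {s : ℤ} (hs : ∑ z, f z = s)
    (hs' : ∑ z, g z = s) (hfg : ∑ z, f z * g z = 0) :
    4 * (((univ.filter fun z => f z = -1 ∧ g z = -1).card : ℕ) : ℤ) =
      Fintype.card P - 2 * s := by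
  have h1 : ∀ z, (4 : ℤ) * (if f z = -1 ∧ g z = -1 then 1 else 0) = 1 - f z - g z + f z * g z := by
    intro z
    rcases hf z with h | h <;> rcases hg z with h' | h' <;> rw [h, h'] <;> norm_num
  rw [Finset.card_filter]
  push_cast
  rw [Finset.mul_sum, Finset.sum_congr rfl fun z _ => h1 z, Finset.sum_add_distrib,
    Finset.sum_sub_distrib, Finset.sum_sub_distrib, hs, hs', hfg]
  simp only [Finset.sum_const, Finset.card_univ, nsmul_eq_mul, mul_one]
  ring

private theorem DesB_shift {n : ℕ} [NeZero n] (c : Fin n) (f : Fin n → ℤ) :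
    ∑ j, f (c + j) = ∑ k, f k := Equiv.sum_comp (Equiv.addLeft c) f

private theorem DesB_core {n : ℕ} [NeZero n] (h : Matrix (Fin n) (Fin n) ℤ)
    (hpm : ∀ i j, h i j = 1 ∨ h i j = -1)
    (hh : ∀ i j, ∑ b, h i b * h j b = if i = j then (n : ℤ) else 0)
    (h0 : ∀ j, h 0 j = 1) (v k l : ℕ) (hv : n * n = v) (hk : 2 * k + n = n * n)
    (hl : 4 * l + 2 * n = n * n) (hkv : k < v) :
    Pool.Agent.H12.SymmetricDesignExists v k l := by
  have hT := DesB_transpose h hh
  have hrow : ∀ i, ∑ b, h i b = if i = 0 then (n : ℤ) else 0 := by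
    intro i
    rw [← hh i 0]
    refine Finset.sum_congr rfl fun b _ => ?_
    rw [h0, mul_one]
  let M : Fin n × Fin n → Fin n × Fin n → ℤ := fun x z => h (x.1 + z.1) x.2 * h (x.1 + z.1) z.2
  have hMs : ∀ x z, M x z = M z x := by
    intro x z
    show h (x.1 + z.1) x.2 * h (x.1 + z.1) z.2 = h (z.1 + x.1) z.2 * h (z.1 + x.1) x.2
    rw [add_comm z.1 x.1, mul_comm]
  have hMpm : ∀ x z, M x z = 1 ∨ M x z = -1 := by
    intro x z
    show h (x.1 + z.1) x.2 * h (x.1 + z.1) z.2 = 1 ∨ h (x.1 + z.1) x.2 * h (x.1 + z.1) z.2 = -1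
    rcases hpm (x.1 + z.1) x.2 with h1 | h1 <;> rcases hpm (x.1 + z.1) z.2 with h2 | h2 <;>
      rw [h1, h2] <;> norm_num
  have hMrow : ∀ x, ∑ z, M x z = n := by
    intro x
    rw [Fintype.sum_prod_type]
    have e1 : ∀ j : Fin n, ∑ b, M x (j, b) = h (x.1 + j) x.2 * if x.1 + j = 0 then (n : ℤ) else 0 := by
      intro j
      rw [← hrow, Finset.mul_sum]
    rw [Finset.sum_congr rfl fun j _ => e1 j]
    have e2 := DesB_shift x.1 (fun k => h k x.2 * if k = 0 then (n : ℤ) else 0)
    refine e2.trans ?_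
    simp [h0]
  have hMin : ∀ x y, x ≠ y → ∑ z, M x z * M y z = 0 := by
    intro x y hxy
    rw [Fintype.sum_prod_type]
    have e1 : ∀ j : Fin n, ∑ b, M x (j, b) * M y (j, b) =
        h (x.1 + j) x.2 * h (y.1 + j) y.2 * if x.1 + j = y.1 + j then (n : ℤ) else 0 := by
      intro j
      rw [← hh, Finset.mul_sum]
      refine Finset.sum_congr rfl fun b _ => ?_
      show h (x.1 + j) x.2 * h (x.1 + j) b * (h (y.1 + j) y.2 * h (y.1 + j) b) = _
      ring
    rw [Finset.sum_congr rfl fun j _ => e1 j]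
    by_cases hi : x.1 = y.1
    · have hne : x.2 ≠ y.2 := fun h' => hxy (Prod.ext hi h')
      rw [← hi]
      simp only [if_true]
      rw [← Finset.sum_mul]
      have e2 : ∑ j, h (x.1 + j) x.2 * h (x.1 + j) y.2 = 0 :=
        (DesB_shift x.1 (fun k => h k x.2 * h k y.2)).trans (by rw [hT, if_neg hne])
      rw [e2, zero_mul]
    · refine Finset.sum_eq_zero fun j _ => ?_
      rw [if_neg (fun h' => hi (add_right_cancel h')), mul_zero]
  have hcard : (Fintype.card (Fin n × Fin n) : ℤ) = n * n := by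
    rw [Fintype.card_prod, Fintype.card_fin]
    push_cast
    ring
  have hc1 : ∀ x, (univ.filter fun z => M x z = -1).card = k := by
    intro x
    have := DesB_card_neg (M x) (hMpm x) (hMrow x)
    rw [hcard] at this
    have hk' : (2 * k + n : ℤ) = n * n := by exact_mod_cast hk
    have : (((univ.filter fun z => M x z = -1).card : ℕ) : ℤ) = k := by linarith
    exact_mod_cast this
  refine DesB_reindex (finProdFinEquiv.trans (finCongr hv)) hkv
    (fun z => univ.filter fun x => M x z = -1) (r := k) ?_ ?_ ?_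
  · intro z
    rw [← hc1 z]
    congr 1
    refine Finset.filter_congr fun x _ => ?_
    rw [hMs]
  · intro x
    rw [← hc1 x]
    congr 1
    refine Finset.filter_congr fun z _ => ?_
    simp
  · intro x y hxy
    have := DesB_card_neg2 (M x) (M y) (hMpm x) (hMpm y) (hMrow x) (hMrow y) (hMin x y hxy)
    rw [hcard] at this
    have hl' : (4 * l + 2 * n : ℤ) = n * n := by exact_mod_cast hl
    have h5 : (((univ.filter fun z => M x z = -1 ∧ M y z = -1).card : ℕ) : ℤ) = l := by linarith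
    have h6 : (univ.filter fun z => M x z = -1 ∧ M y z = -1).card = l := by exact_mod_cast h5
    rw [← h6]
    congr 1
    refine Finset.filter_congr fun z _ => ?_
    simp

theorem menon_of_hadamard (u : ℕ) (hu : 1 ≤ u) (H : Matrix (Fin (2 * u)) (Fin (2 * u)) ℤ)
    (hpm : ∀ i j, H i j = 1 ∨ H i j = -1)
    (hH : H * Hᵀ = ((2 * u : ℕ) : ℤ) • (1 : Matrix (Fin (2 * u)) (Fin (2 * u)) ℤ)) :
    Pool.Agent.H12.SymmetricDesignExists (4 * u ^ 2) (2 * u ^ 2 - u) (u ^ 2 - u) := by
  have : NeZero (2 * u) := ⟨by omega⟩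
  have hsq : ∀ i j, H i j * H i j = 1 := by
    intro i j
    rcases hpm i j with h | h <;> rw [h] <;> norm_num
  have hle : u ≤ u ^ 2 := by nlinarith
  refine DesB_core (n := 2 * u) (fun k j => H k j * H 0 j) ?_ ?_ (fun j => hsq 0 j) _ _ _ ?_ ?_ ?_ ?_
  · intro i j
    rcases hpm i j with h1 | h1 <;> rcases hpm 0 j with h2 | h2 <;> rw [h1, h2] <;> norm_num
  · intro i j
    have h1 := congrFun (congrFun hH i) j
    rw [Matrix.mul_apply, Matrix.smul_apply, Matrix.one_apply] at h1
    have h2 : ∀ b, H i b * H 0 b * (H j b * H 0 b) = H i b * Hᵀ b j := by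
      intro b
      rw [Matrix.transpose_apply]
      linear_combination (H i b * H j b) * hsq 0 b
    rw [Finset.sum_congr rfl fun b _ => h2 b, h1]
    split_ifs <;> simp
  · ring
  · have : 2 * (2 * u ^ 2 - u) = 4 * u ^ 2 - 2 * u := by omega
    rw [this]
    have h2 : 2 * u * (2 * u) = 4 * u ^ 2 := by ring
    rw [h2]
    omega
  · have h2 : 2 * u * (2 * u) = 4 * u ^ 2 := by ring
    rw [h2]
    omega
  · omega

end H10.HD
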