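import Mathlib
import Pool.Agent.H10.HD.PU

/-!
MODULE Had (about 100 lines).  From `Len s n` to a Hadamard matrix of order `2^s n`.

Let `A` be the family of `Len s n` and `ζ = exp (2 π i / n)` (`Complex.isPrimitiveRoot_exp`).
Index set `Fin (2^s) × ZMod n` (or `Fin n`; `n ≥ 1`), `H (i,x) (j,y) = A i j ((x - y).val)`.  Claim:
`∑ j y, H (i,x) (j,y) H (i',x') (j,y) = 2^s n` if `(i,x) = (i',x')` and `0` otherwise.  For `r = 0, ..., n-1` put
`u = ζ^r`, the identity `PU.un` at the entry `(i,i')` reads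
`∑ j, (∑_a A i j a ζ^(r a)) (∑_b A i' j b ζ^(-r b)) = 2^s n [i = i']` (`star ζ = ζ⁻¹`).  Multiply by `ζ^(-r d)`, `d = x - x'`,
and sum over `r`: the sum over `r` of `ζ^(r (a - b - d))` is `n` if `a - b = d` mod `n` and `0` otherwise, so the
left side is `n ∑ j ∑_{a - b = d} A i j a A i' j b`, which is `n` times the sum of the claim (`a = x - y`, `b = x' - y`); the
right side is `n 2^s n` if `i = i'` and `d = 0`, else `0`.  Finally reindex to `Fin (2^s n)` (`Fintype.equivFinOfCardEq`).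
Any other proof (e.g. comparing coefficients of polynomials) is fine.
-/

namespace H10.HD

open Finset Matrix

private theorem had_sum_val {n : ℕ} [NeZero n] (f : ℕ → ℂ) :
    ∑ a : ZMod n, f a.val = ∑ k ∈ range n, f k := by
  refine Finset.sum_nbij (fun a : ZMod n => a.val) ?_ ?_ ?_ ?_
  · intro a _
    exact Finset.mem_range.mpr (ZMod.val_lt a)
  · intro a _ b _ h
    exact ZMod.val_injective n h
  · intro k hk
    have hk' : k < n := by simpa using hk
    exact ⟨(k : ZMod n), Finset.mem_coe.2 (Finset.mem_univ _), ZMod.val_cast_of_lt hk'⟩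
  · intro a _
    rfl

private theorem had_conv {n : ℕ} [NeZero n] (f g : ZMod n → ℂ) (d : ZMod n) :
    ∑ r : ZMod n, (∑ a, f a * ZMod.stdAddChar (r * a)) *
      (∑ b, g b * ZMod.stdAddChar (-(r * b))) * ZMod.stdAddChar (-(r * d)) =
      (n : ℂ) * ∑ a, f a * g (a - d) := by
  have e1 : ∀ r a b : ZMod n, f a * ZMod.stdAddChar (r * a) *
      (g b * ZMod.stdAddChar (-(r * b))) * ZMod.stdAddChar (-(r * d)) =
      f a * g b * ZMod.stdAddChar (r * (a - b - d)) := by
    intro r a b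
    rw [show r * (a - b - d) = r * a + (-(r * b)) + (-(r * d)) by ring,
      AddChar.map_add_eq_mul, AddChar.map_add_eq_mul]
    ring
  simp_rw [Finset.sum_mul_sum, Finset.sum_mul, e1]
  rw [Finset.sum_comm]
  rw [Finset.mul_sum]
  refine Finset.sum_congr rfl fun a _ => ?_
  rw [Finset.sum_comm]
  have e2 : ∀ b : ZMod n, ∑ r : ZMod n, f a * g b * ZMod.stdAddChar (r * (a - b - d)) =
      f a * g b * (if b = a - d then (n : ℂ) else 0) := by
    intro b
    rw [← Finset.mul_sum, AddChar.sum_mulShift _ (ZMod.isPrimitive_stdAddChar n), ZMod.card]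
    congr 1
    by_cases h : b = a - d
    · rw [if_pos h, if_pos (by rw [h]; ring)]
    · rw [if_neg h, if_neg (fun h' => h (by linear_combination -h'))]
      simp
  rw [Finset.sum_congr rfl fun b _ => e2 b]
  simp only [mul_ite, mul_zero, Finset.sum_ite_eq', Finset.mem_univ, if_true]
  ring

theorem Len.hadamard {s n : ℕ} (h : Len s n) (hn : 1 ≤ n) :
    ∃ H : Matrix (Fin (2 ^ s * n)) (Fin (2 ^ s * n)) ℤ,
      (∀ i j, H i j = 1 ∨ H i j = -1) ∧
      H * Hᵀ = ((2 ^ s * n : ℕ) : ℤ) • (1 : Matrix (Fin (2 ^ s * n)) (Fin (2 ^ s * n)) ℤ) := by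
  have : NeZero n := ⟨by omega⟩
  obtain ⟨A, hA⟩ := h
  -- values at the roots of unity
  have hu : ∀ r : ZMod n, star (ZMod.stdAddChar r : ℂ) * ZMod.stdAddChar r = 1 := by
    intro r
    have h1 : star (ZMod.stdAddChar r : ℂ) = ZMod.stdAddChar (-r) :=
      (AddChar.map_neg_eq_conj (K := ℂ) ZMod.stdAddChar r).symm
    rw [h1, ← AddChar.map_add_eq_mul, neg_add_cancel, AddChar.map_zero_eq_one]
  have hpow : ∀ (r : ZMod n) (k : ℕ), (ZMod.stdAddChar r : ℂ) ^ k =
      ZMod.stdAddChar (r * (k : ZMod n)) := by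
    intro r k
    rw [← AddChar.map_nsmul_eq_pow, nsmul_eq_mul, mul_comm]
  have hev : ∀ (i j : Fin (2 ^ s)) (r : ZMod n), ev (A i j) n (ZMod.stdAddChar r : ℂ) =
      ∑ a : ZMod n, ((A i j a.val : ℤ) : ℂ) * ZMod.stdAddChar (r * a) := by
    intro i j r
    have h1 := had_sum_val (n := n) (fun k => ((A i j k : ℤ) : ℂ) *
      (ZMod.stdAddChar (r * (k : ZMod n)) : ℂ))
    unfold ev
    rw [Finset.sum_congr rfl fun x _ => by rw [hpow r x], ← h1]
    refine Finset.sum_congr rfl fun a _ => ?_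
    rw [ZMod.natCast_zmod_val]
  have hstar : ∀ (i j : Fin (2 ^ s)) (r : ZMod n), star (ev (A i j) n (ZMod.stdAddChar r : ℂ)) =
      ∑ b : ZMod n, ((A i j b.val : ℤ) : ℂ) * ZMod.stdAddChar (-(r * b)) := by
    intro i j r
    rw [hev, star_sum]
    refine Finset.sum_congr rfl fun b _ => ?_
    rw [star_mul', AddChar.map_neg_eq_conj]
    simp
  -- the correlations
  have hcor : ∀ (i i' : Fin (2 ^ s)) (d : ZMod n),
      ∑ j : Fin (2 ^ s), ∑ a : ZMod n, A i j a.val * A i' j (a - d).val =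
        if i = i' ∧ d = 0 then ((2 ^ s * n : ℕ) : ℤ) else 0 := by
    intro i i' d
    have h1 : ∀ r : ZMod n, ∑ j : Fin (2 ^ s),
        (∑ a : ZMod n, ((A i j a.val : ℤ) : ℂ) * ZMod.stdAddChar (r * a)) *
        (∑ b : ZMod n, ((A i' j b.val : ℤ) : ℂ) * ZMod.stdAddChar (-(r * b))) =
        if i = i' then ((2 ^ s * n : ℕ) : ℂ) else 0 := by
      intro r
      have h2 := congrFun (congrFun (hA.un _ (hu r)) i) i'
      rw [Matrix.mul_apply] at h2
      simp only [Matrix.conjTranspose_apply, MM_apply, hstar] at h2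
      simp only [hev, Matrix.smul_apply,
        Matrix.one_apply, Fintype.card_fin, smul_eq_mul, mul_ite, mul_one, mul_zero] at h2
      exact h2
    have h2 : ∀ j : Fin (2 ^ s), ∑ r : ZMod n,
        (∑ a : ZMod n, ((A i j a.val : ℤ) : ℂ) * ZMod.stdAddChar (r * a)) *
        (∑ b : ZMod n, ((A i' j b.val : ℤ) : ℂ) * ZMod.stdAddChar (-(r * b))) *
          ZMod.stdAddChar (-(r * d)) =
        (n : ℂ) * ∑ a : ZMod n, ((A i j a.val : ℤ) : ℂ) * ((A i' j (a - d).val : ℤ) : ℂ) :=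
      fun j => had_conv (fun a => ((A i j a.val : ℤ) : ℂ)) (fun b => ((A i' j b.val : ℤ) : ℂ)) d
    have h3 : (n : ℂ) * ∑ j : Fin (2 ^ s), ∑ a : ZMod n,
        ((A i j a.val : ℤ) : ℂ) * ((A i' j (a - d).val : ℤ) : ℂ) =
        ∑ r : ZMod n, (if i = i' then ((2 ^ s * n : ℕ) : ℂ) else 0) *
          ZMod.stdAddChar (-(r * d)) := by
      rw [Finset.mul_sum, Finset.sum_congr rfl fun j _ => (h2 j).symm, Finset.sum_comm]
      refine Finset.sum_congr rfl fun r _ => ?_
      rw [← Finset.sum_mul, h1 r]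
    have h4 : ∑ r : ZMod n, (ZMod.stdAddChar (-(r * d)) : ℂ) = if d = 0 then (n : ℂ) else 0 := by
      have h5 : ∀ r : ZMod n, (ZMod.stdAddChar (-(r * d)) : ℂ) = ZMod.stdAddChar (r * (-d)) := by
        intro r; rw [mul_neg]
      rw [Finset.sum_congr rfl fun r _ => h5 r,
        AddChar.sum_mulShift _ (ZMod.isPrimitive_stdAddChar n), ZMod.card]
      by_cases hd : d = 0
      · simp [hd]
      · simp [hd]
    rw [← Finset.mul_sum, h4] at h3
    have hn0 : (n : ℂ) ≠ 0 := by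
      exact_mod_cast (NeZero.ne n)
    have h6 : ∑ j : Fin (2 ^ s), ∑ a : ZMod n,
        ((A i j a.val : ℤ) : ℂ) * ((A i' j (a - d).val : ℤ) : ℂ) =
        if i = i' ∧ d = 0 then ((2 ^ s * n : ℕ) : ℂ) else 0 := by
      apply mul_left_cancel₀ hn0
      rw [h3]
      by_cases h7 : i = i' <;> by_cases h8 : d = 0 <;> simp [h7, h8]
      ring
    have h9 : ((∑ j : Fin (2 ^ s), ∑ a : ZMod n, A i j a.val * A i' j (a - d).val : ℤ) : ℂ) =
        ((if i = i' ∧ d = 0 then ((2 ^ s * n : ℕ) : ℤ) else 0 : ℤ) : ℂ) := by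
      push_cast
      push_cast at h6
      exact h6
    exact_mod_cast h9
  -- the matrix
  let H0 : Matrix (Fin (2 ^ s) × ZMod n) (Fin (2 ^ s) × ZMod n) ℤ :=
    Matrix.of fun p q => A p.1 q.1 (p.2 - q.2).val
  have hH0 : H0 * H0ᵀ = ((2 ^ s * n : ℕ) : ℤ) •
      (1 : Matrix (Fin (2 ^ s) × ZMod n) (Fin (2 ^ s) × ZMod n) ℤ) := by
    ext ⟨i, x⟩ ⟨i', x'⟩
    rw [Matrix.mul_apply, Fintype.sum_prod_type]
    simp only [Matrix.transpose_apply, H0, Matrix.of_apply, Matrix.smul_apply,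
      Matrix.one_apply, Prod.mk.injEq, smul_eq_mul, mul_ite, mul_one, mul_zero]
    have h1 : ∀ j : Fin (2 ^ s), ∑ y : ZMod n, A i j (x - y).val * A i' j (x' - y).val =
        ∑ a : ZMod n, A i j a.val * A i' j (a - (x - x')).val := by
      intro j
      rw [← (Equiv.subLeft x).sum_comp]
      refine Finset.sum_congr rfl fun y _ => ?_
      have : (Equiv.subLeft x) y = x - y := rfl
      rw [this, show x - (x - y) = y by ring, show x' - (x - y) = y - (x - x') by ring]
    rw [Finset.sum_congr rfl fun j _ => h1 j, hcor]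
    by_cases h2 : i = i'
    · by_cases h3 : x = x'
      · simp [h2, h3]
      · have h4 : x - x' ≠ 0 := sub_ne_zero.mpr h3
        simp [h2, h3, h4]
    · simp [h2]
  have hcard : Fintype.card (Fin (2 ^ s) × ZMod n) = 2 ^ s * n := by
    rw [Fintype.card_prod, Fintype.card_fin, ZMod.card]
  have e : (Fin (2 ^ s) × ZMod n) ≃ Fin (2 ^ s * n) := Fintype.equivFinOfCardEq hcard
  refine ⟨H0.submatrix e.symm e.symm, fun i j => hA.pm _ _ _, ?_⟩
  rw [Matrix.transpose_submatrix, Matrix.submatrix_mul_equiv, hH0]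
  ext i j
  simp only [Matrix.submatrix_apply, Matrix.smul_apply, Matrix.one_apply,
    EmbeddingLike.apply_eq_iff_eq]

end H10.HD
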