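import Mathlib
import Pool.Agent.H10.HD.Asm

/-!
MODULE Num.  Final numerical recursion.
-/

namespace H10.HD

theorem step (L v s : ℕ) (hv : 2 ≤ v) (hL : 8 * v * (L + 1) ≤ 2 ^ v) (hs1 : 1 ≤ s)
    (hs : s ≤ 248 * v) (hsmall : ∀ n, 1 ≤ n → n < 2 ^ (56 * v + 6) → Len s n) (n : ℕ)
    (hn : 1 ≤ n) (hnL : n < 2 ^ L) : Len (660 * (Nat.log 2 L + 3) * (s + 1)) n := by
  obtain ⟨l, hne, hl, hx, rfl⟩ := assemble L v s hv hL hs1 hs hsmall n hn hnL
  set N := 330 * (Nat.log 2 L + 3) with hN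
  have hN1 : 1 < N := by omega
  have h1 : N ≤ 2 ^ Nat.clog 2 N := Nat.le_pow_clog (by norm_num) N
  have h2 : 2 ^ Nat.clog 2 N < 2 * N := by
    have h3 : 2 ^ (Nat.clog 2 N).pred < N := Nat.pow_pred_clog_lt_self (by norm_num) hN1
    have h4 : 0 < Nat.clog 2 N := Nat.clog_pos (by norm_num) (by omega)
    have h5 : Nat.clog 2 N = (Nat.clog 2 N).pred + 1 := by
      rw [Nat.pred_eq_sub_one]
      omega
    rw [h5, pow_succ]
    omega
  have h6 := Len.list (Nat.clog 2 N) l hx hne (hl.trans h1)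
  refine h6.mono ?_
  have h7 : 2 ^ Nat.clog 2 N * (s + 1) ≤ 2 * N * (s + 1) := Nat.mul_le_mul_right _ h2.le
  have h8 : 2 * N * (s + 1) = 660 * (Nat.log 2 L + 3) * (s + 1) := by
    rw [hN]
    ring
  omega

theorem prime_cond (L : ℕ) : 8 * (2 * Nat.log 2 L + 10) * (L + 1) ≤ 2 ^ (2 * Nat.log 2 L + 10) := by
  set ℓ := Nat.log 2 L with hℓ
  have h1 : L < 2 ^ (ℓ + 1) := Nat.lt_pow_succ_log_self (by norm_num) L
  have h2 : ℓ < 2 ^ ℓ := Nat.lt_two_pow_self
  have h3 : 2 ^ (2 * ℓ + 10) = (512 * 2 ^ ℓ) * 2 ^ (ℓ + 1) := by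
    rw [show (512 : ℕ) = 2 ^ 9 by norm_num, ← pow_add, ← pow_add]
    congr 1
    ring
  rw [h3]
  exact Nat.mul_le_mul (by omega) h1

theorem len_nat (L n : ℕ) (hn : 1 ≤ n) (hnL : n < 2 ^ L) :
    Len (660 * (Nat.log 2 L + 3) *
      (660 * (Nat.log 2 (56 * (2 * Nat.log 2 L + 10) + 6) + 3) *
        (4 * (56 * (2 * Nat.log 2 (56 * (2 * Nat.log 2 L + 10) + 6) + 10) + 6)) + 1)) n := by
  set v := 2 * Nat.log 2 L + 10 with hv
  set L₁ := 56 * v + 6 with hL₁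
  set v₁ := 2 * Nat.log 2 L₁ + 10 with hv₁
  have small : ∀ B, ∀ n, 1 ≤ n → n < 2 ^ B → Len (4 * B - 1) n := fun B n h1 h2 => Len.small h1 h2
  have h2 : ∀ n, 1 ≤ n → n < 2 ^ L₁ →
      Len (660 * (Nat.log 2 L₁ + 3) * (4 * (56 * v₁ + 6) - 1 + 1)) n := by
    intro n h1 h2
    exact step L₁ v₁ (4 * (56 * v₁ + 6) - 1) (by omega) (prime_cond L₁) (by omega) (by omega)
      (small _) n h1 h2
  rw [show 4 * (56 * v₁ + 6) - 1 + 1 = 4 * (56 * v₁ + 6) by omega] at h2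
  set s₂ := 660 * (Nat.log 2 L₁ + 3) * (4 * (56 * v₁ + 6)) with hs₂
  rcases Nat.lt_or_ge (248 * v) s₂ with h | h
  · refine (step L v (4 * (56 * v + 6) - 1) (by omega) (prime_cond L) (by omega) (by omega)
      (small _) n hn hnL).mono ?_
    exact Nat.mul_le_mul_left _ (by omega)
  · refine step L v s₂ (by omega) (prime_cond L) ?_ h h2 n hn hnL
    rw [hs₂]
    exact Nat.mul_pos (by omega) (by omega)

theorem log_two_bounds : 0.69 < Real.log 2 ∧ Real.log 2 < 0.7 := by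
  constructor
  · have := Real.log_two_gt_d9
    linarith
  · have := Real.log_two_lt_d9
    linarith

theorem natLog_le (n : ℕ) (hn : 1 ≤ n) : (Nat.log 2 n : ℝ) ≤ 1.45 * Real.log n := by
  have h1 : (Nat.log 2 n : ℝ) ≤ Real.logb 2 n := by
    have := Real.natLog_le_logb n 2
    exact_mod_cast this
  refine h1.trans ?_
  unfold Real.logb
  have h2 : 0 ≤ Real.log n := Real.log_nonneg (by exact_mod_cast hn)
  have h3 := log_two_bounds.1
  rw [div_le_iff₀ (by linarith)]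
  nlinarith

theorem xyz (x : ℝ) (hx : 0 < x) :
    (1 + x) * (1 + Real.log (1 + x)) ^ 2 ≤ 200 * (1 + x * (Real.log x) ^ 2) := by
  obtain ⟨h1, h2⟩ := log_two_bounds
  have hy : 0 ≤ Real.log (1 + x) := Real.log_nonneg (by linarith)
  rcases le_or_gt x 8 with h | h
  · have h3 : Real.log (1 + x) ≤ Real.log 16 := Real.log_le_log (by linarith) (by linarith)
    have h4 : Real.log 16 = 4 * Real.log 2 := by
      rw [show (16 : ℝ) = 2 ^ 4 by norm_num, Real.log_pow]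
      norm_num
    have h5 : Real.log (1 + x) ≤ 2.8 := by linarith
    have h6 : (1 + Real.log (1 + x)) ^ 2 ≤ 3.8 ^ 2 := by
      apply pow_le_pow_left₀ (by linarith)
      linarith
    have h7 : 0 ≤ x * (Real.log x) ^ 2 := by positivity
    calc (1 + x) * (1 + Real.log (1 + x)) ^ 2 ≤ 9 * 3.8 ^ 2 := by
          apply mul_le_mul (by linarith) h6 (by positivity) (by norm_num)
      _ ≤ 200 * (1 + x * (Real.log x) ^ 2) := by nlinarith
  · have h3 : Real.log 8 = 3 * Real.log 2 := by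
      rw [show (8 : ℝ) = 2 ^ 3 by norm_num, Real.log_pow]
      norm_num
    have h4 : Real.log 8 ≤ Real.log x := Real.log_le_log (by norm_num) h.le
    have h5 : Real.log (1 + x) ≤ Real.log (2 * x) := Real.log_le_log (by linarith) (by linarith)
    rw [Real.log_mul (by norm_num) (by linarith)] at h5
    have h6 : 1 + Real.log (1 + x) ≤ 2 * Real.log x := by linarith
    have h7 : (1 + Real.log (1 + x)) ^ 2 ≤ (2 * Real.log x) ^ 2 :=
      pow_le_pow_left₀ (by linarith) h6 2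
    calc (1 + x) * (1 + Real.log (1 + x)) ^ 2 ≤ (2 * x) * (2 * Real.log x) ^ 2 := by
          apply mul_le_mul (by linarith) h7 (by positivity) (by linarith)
      _ = 8 * (x * (Real.log x) ^ 2) := by ring
      _ ≤ 200 * (1 + x * (Real.log x) ^ 2) := by
          have : 0 ≤ x * (Real.log x) ^ 2 := by positivity
          nlinarith

theorem real_part (q t L ℓ L₁ ℓ₁ : ℕ) (w x : ℝ) (hq : 3 ≤ q) (hL : L = Nat.log 2 q + 1)
    (hℓ : ℓ = Nat.log 2 L) (hL₁ : L₁ = 56 * (2 * ℓ + 10) + 6) (hℓ₁ : ℓ₁ = Nat.log 2 L₁)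
    (hwdef : w = Real.log q) (hx : x = Real.log w)
    (ht : 100000000000000 * (1 + x * (Real.log x) ^ 2) ≤ (t : ℝ)) :
    660 * (ℓ + 3) * (660 * (ℓ₁ + 3) * (4 * (56 * (2 * ℓ₁ + 10) + 6)) + 1) ≤ t := by
  obtain ⟨hl2a, hl2b⟩ := log_two_bounds
  have hq3 : (3 : ℝ) ≤ q := by exact_mod_cast hq
  have hw : 1 < w := by
    rw [hwdef, Real.lt_log_iff_exp_lt (by linarith)]
    have := Real.exp_one_lt_d9
    linarith
  have hx0 : 0 < x := by
    rw [hx]
    exact Real.log_pos hw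
  have hy0 : 0 ≤ Real.log (1 + x) := Real.log_nonneg (by linarith)
  have hLw : (L : ℝ) ≤ 2.45 * w := by
    have h1 := natLog_le q (by omega)
    rw [← hwdef] at h1
    rw [hL]
    push_cast
    linarith
  have hLpos : (0 : ℝ) < L := by
    rw [hL]
    positivity
  have hlogL : Real.log L ≤ 1 + x := by
    have h1 : Real.log L ≤ Real.log (Real.exp 1 * w) := by
      apply Real.log_le_log hLpos
      have := Real.exp_one_gt_d9
      nlinarith
    rw [Real.log_mul (Real.exp_pos 1).ne' (by linarith), Real.log_exp, ← hx] at h1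
    exact h1
  have hℓx : (ℓ : ℝ) ≤ 2 + 2 * x := by
    have h1 := natLog_le L (by omega)
    rw [← hℓ] at h1
    nlinarith
  have hL1x : (L₁ : ℝ) ≤ 1024 * (1 + x) := by
    rw [hL₁]
    push_cast
    linarith
  have hL1pos : (0 : ℝ) < L₁ := by
    rw [hL₁]
    positivity
  have hlogL1 : Real.log L₁ ≤ 7 + Real.log (1 + x) := by
    have h1 : Real.log L₁ ≤ Real.log (1024 * (1 + x)) := Real.log_le_log hL1pos hL1x
    have h2 : Real.log (1024 * (1 + x)) = 10 * Real.log 2 + Real.log (1 + x) := by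
      rw [Real.log_mul (by norm_num) (by linarith), show (1024 : ℝ) = 2 ^ 10 by norm_num,
        Real.log_pow]
      norm_num
    linarith
  obtain ⟨Y, hY⟩ : ∃ Y, Y = 1 + Real.log (1 + x) := ⟨_, rfl⟩
  have hY1 : 1 ≤ Y := by linarith
  have hℓ1y : (ℓ₁ : ℝ) ≤ 11 * Y := by
    have h1 := natLog_le L₁ (by omega)
    rw [← hℓ₁] at h1
    nlinarith
  have e7 := xyz x hx0
  rw [← hY] at e7
  have e1 : (660 : ℝ) * (ℓ + 3) ≤ 3300 * (1 + x) := by linarith
  have e2 : (660 : ℝ) * (ℓ₁ + 3) ≤ 9240 * Y := by linarith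
  have e3 : (4 : ℝ) * (56 * (2 * ℓ₁ + 10) + 6) ≤ 7200 * Y := by linarith
  have e4 : (660 : ℝ) * (ℓ₁ + 3) * (4 * (56 * (2 * ℓ₁ + 10) + 6)) ≤ (9240 * Y) * (7200 * Y) :=
    mul_le_mul e2 e3 (by positivity) (by positivity)
  have e5 : (660 : ℝ) * (ℓ₁ + 3) * (4 * (56 * (2 * ℓ₁ + 10) + 6)) + 1 ≤ 66528001 * Y ^ 2 := by
    have h1 : 1 ≤ Y ^ 2 := one_le_pow₀ hY1
    have h2 : (9240 * Y) * (7200 * Y) = 66528000 * Y ^ 2 := by ring
    linarith
  have e6 : (660 : ℝ) * (ℓ + 3) *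
      (660 * (ℓ₁ + 3) * (4 * (56 * (2 * ℓ₁ + 10) + 6)) + 1) ≤
      (3300 * (1 + x)) * (66528001 * Y ^ 2) :=
    mul_le_mul e1 e5 (by positivity) (by positivity)
  have e8 : 0 ≤ x * Real.log x ^ 2 := by positivity
  have e9 : (3300 * (1 + x)) * (66528001 * Y ^ 2) = 219542403300 * ((1 + x) * Y ^ 2) := by ring
  have hcast : ((660 * (ℓ + 3) * (660 * (ℓ₁ + 3) * (4 * (56 * (2 * ℓ₁ + 10) + 6)) + 1) : ℕ) : ℝ) ≤
      t := by
    push_cast
    linarith
  exact_mod_cast hcast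

theorem len_all : ∃ C : ℝ, 0 < C ∧ ∀ q t : ℕ, 3 ≤ q →
    C * (1 + Real.log (Real.log q) * (Real.log (Real.log (Real.log q))) ^ 2) ≤ t → Len t q := by
  refine ⟨100000000000000, by norm_num, fun q t hq ht => ?_⟩
  exact (len_nat (Nat.log 2 q + 1) q (by omega)
    (Nat.lt_pow_succ_log_self (by norm_num) q)).mono
    (real_part q t _ _ _ _ _ _ hq rfl rfl rfl rfl rfl rfl ht)

end H10.HD
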